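import Mathlib

/-! Elementary Fourier analysis on the discrete cube. -/

namespace Pool.Agent.P.MP_f066c6_an

open Finset

/-- The sign attached to a bit. -/
def sg (b : Bool) : ℝ := if b then -1 else 1

/-- Uniform average. -/
noncomputable def av {α : Type*} [Fintype α] (F : α → ℝ) : ℝ :=
  (∑ x, F x) / Fintype.card α

lemma sg_sq (b : Bool) : sg b * sg b = 1 := by cases b <;> simp [sg]

lemma abs_sg (b : Bool) : |sg b| = 1 := by cases b <;> simp [sg]

section av
variable {α : Type*} [Fintype α]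

lemma av_add (F G : α → ℝ) : av (fun x => F x + G x) = av F + av G := by
  simp [av, sum_add_distrib, add_div]

lemma av_sub (F G : α → ℝ) : av (fun x => F x - G x) = av F - av G := by
  simp [av, sum_sub_distrib, sub_div]

lemma av_const_mul (c : ℝ) (F : α → ℝ) : av (fun x => c * F x) = c * av F := by
  simp [av, ← mul_sum, mul_div_assoc]

lemma av_mul_const (c : ℝ) (F : α → ℝ) : av (fun x => F x * c) = av F * c := by
  simp [av, ← sum_mul]; ring

lemma av_sum {κ : Type*} (s : Finset κ) (F : κ → α → ℝ) :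
    av (fun x => ∑ k ∈ s, F k x) = ∑ k ∈ s, av (F k) := by
  simp only [av]
  rw [sum_comm, sum_div]

lemma av_const [Nonempty α] (c : ℝ) : av (fun _ : α => c) = c := by
  simp [av]

lemma av_mono {F G : α → ℝ} (h : ∀ x, F x ≤ G x) : av F ≤ av G := by
  unfold av
  exact div_le_div_of_nonneg_right (sum_le_sum fun x _ => h x) (Nat.cast_nonneg _)

lemma av_nonneg {F : α → ℝ} (h : ∀ x, 0 ≤ F x) : 0 ≤ av F :=
  div_nonneg (sum_nonneg fun x _ => h x) (Nat.cast_nonneg _)

lemma abs_av_le (F : α → ℝ) : |av F| ≤ av (fun x => |F x|) := by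
  unfold av
  rw [abs_div, Nat.abs_cast]
  exact div_le_div_of_nonneg_right (abs_sum_le_sum_abs _ _) (Nat.cast_nonneg _)

lemma av_equiv {β : Type*} [Fintype β] (e : α ≃ β) (F : β → ℝ) :
    av (fun x => F (e x)) = av F := by
  unfold av
  rw [Equiv.sum_comp e F, Fintype.card_congr e]

/-- Cauchy-Schwarz for averages. -/
lemma av_mul_sq_le (F G : α → ℝ) :
    (av (fun x => F x * G x)) ^ 2 ≤ av (fun x => F x ^ 2) * av (fun x => G x ^ 2) := by
  unfold av
  rw [div_pow, div_mul_div_comm, ← sq]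
  exact div_le_div_of_nonneg_right (sum_mul_sq_le_sq_mul_sq _ _ _) (by positivity)

/-- Weighted Cauchy-Schwarz. -/
lemma av_weighted_sq_le (C G : α → ℝ) (hC : ∀ x, 0 ≤ C x) :
    (av (fun x => C x * G x)) ^ 2 ≤ av C * av (fun x => C x * G x ^ 2) := by
  have h := av_mul_sq_le (fun x => √(C x)) (fun x => √(C x) * G x)
  have e1 : (fun x => √(C x) * (√(C x) * G x)) = fun x => C x * G x := by
    funext x; rw [← mul_assoc, Real.mul_self_sqrt (hC x)]
  have e2 : (fun x => √(C x) ^ 2) = C := by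
    funext x; rw [Real.sq_sqrt (hC x)]
  have e3 : (fun x => (√(C x) * G x) ^ 2) = fun x => C x * G x ^ 2 := by
    funext x; rw [mul_pow, Real.sq_sqrt (hC x)]
  rwa [e1, e2, e3] at h

lemma av_sq_le [Nonempty α] {U : α → ℝ} {Y : ℝ} (_hY : 0 ≤ Y)
    (h : av (fun x => U x ^ 4) ≤ Y ^ 4) : av (fun x => U x ^ 2) ≤ Y ^ 2 := by
  have h1 := av_mul_sq_le (fun _ : α => (1 : ℝ)) (fun x => U x ^ 2)
  simp only [one_mul, one_pow, av_const] at h1
  have e : (fun x => (U x ^ 2) ^ 2) = fun x => U x ^ 4 := by funext x; ring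
  rw [e] at h1
  have h2 : (av (fun x => U x ^ 2)) ^ 2 ≤ (Y ^ 2) ^ 2 := by nlinarith
  exact (abs_le_of_sq_le_sq' h2 (by positivity)).2

lemma av_abs_le [Nonempty α] {U : α → ℝ} {Y : ℝ} (hY : 0 ≤ Y)
    (h : av (fun x => U x ^ 4) ≤ Y ^ 4) : av (fun x => |U x|) ≤ Y := by
  have h0 := av_sq_le hY h
  have h1 := av_mul_sq_le (fun _ : α => (1 : ℝ)) (fun x => |U x|)
  simp only [one_mul, one_pow, av_const, sq_abs] at h1
  exact (abs_le_of_sq_le_sq' (h1.trans h0) hY).2

end av

lemma av_prod {κ β : Type*} [Fintype κ] [DecidableEq κ] [Fintype β] (b : κ → β → ℝ) :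
    av (fun x : κ → β => ∏ l, b l (x l)) = ∏ l, av (b l) := by
  unfold av
  rw [prod_div_distrib, Fintype.prod_sum, Fintype.card_fun]
  simp

lemma av_bool (F : Bool → ℝ) : av F = (F true + F false) / 2 := by
  simp [av]

variable {ι : Type*} [Fintype ι] [DecidableEq ι]

/-- Walsh function. -/
def chi (S : Finset ι) (x : ι → Bool) : ℝ := ∏ i ∈ S, sg (x i)

omit [Fintype ι] [DecidableEq ι] in
lemma abs_chi (S : Finset ι) (x : ι → Bool) : |chi S x| = 1 := by
  simp [chi, abs_prod, abs_sg]

lemma chi_eq_prod (S : Finset ι) (x : ι → Bool) :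
    chi S x = ∏ i, (if i ∈ S then sg (x i) else 1) := by
  rw [chi, prod_ite_mem]; simp

lemma av_chi_mul (S T : Finset ι) :
    av (fun x => chi S x * chi T x) = if S = T then 1 else 0 := by
  have e : (fun x => chi S x * chi T x) = fun x : ι → Bool =>
      ∏ i, ((fun i b => (if i ∈ S then sg b else 1) * (if i ∈ T then sg b else 1)) i (x i)) := by
    funext x
    rw [chi_eq_prod, chi_eq_prod, ← prod_mul_distrib]
  rw [e, av_prod (fun i b => (if i ∈ S then sg b else 1) * (if i ∈ T then sg b else 1))]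
  split_ifs with h
  · subst h
    refine prod_eq_one fun i _ => ?_
    rw [av_bool]
    split_ifs <;> norm_num [sg]
  · have : ∃ i, ¬ (i ∈ S ↔ i ∈ T) := by
      by_contra hc
      push Not at hc
      exact h (Finset.ext hc)
    obtain ⟨i, hi⟩ := this
    refine prod_eq_zero (mem_univ i) ?_
    rw [av_bool]
    by_cases h1 : i ∈ S <;> by_cases h2 : i ∈ T <;> simp_all [sg]

/-- The noise operator with correlation `ρ`. -/
noncomputable def heat (ρ : ℝ) (f : (ι → Bool) → ℝ) (x : ι → Bool) : ℝ :=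
  ∑ S : Finset ι, ρ ^ S.card * av (fun y => f y * chi S y) * chi S x

lemma heat_eq_kernel (ρ : ℝ) (f : (ι → Bool) → ℝ) (x : ι → Bool) :
    heat ρ f x = av (fun y => f y * ∏ i, (1 + ρ * (sg (x i) * sg (y i)))) := by
  have e : ∀ y : ι → Bool, f y * ∏ i, (1 + ρ * (sg (x i) * sg (y i))) =
      ∑ S : Finset ι, ρ ^ S.card * (f y * chi S y) * chi S x := by
    intro y
    rw [prod_one_add, powerset_univ, mul_sum]
    refine sum_congr rfl fun S _ => ?_
    simp only [prod_mul_distrib, prod_const, chi]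
    ring
  simp only [e]
  rw [av_sum, heat]
  refine sum_congr rfl fun S _ => ?_
  rw [av_mul_const, av_const_mul]

lemma abs_heat_le {ρ : ℝ} (h0 : 0 ≤ ρ) (h1 : ρ ≤ 1) {f : (ι → Bool) → ℝ} (hf : ∀ y, |f y| ≤ 1)
    (x : ι → Bool) : |heat ρ f x| ≤ 1 := by
  rw [heat_eq_kernel]
  refine (abs_av_le _).trans ?_
  have hk : ∀ y : ι → Bool, 0 ≤ ∏ i, (1 + ρ * (sg (x i) * sg (y i))) := by
    intro y
    refine prod_nonneg fun i _ => ?_
    cases x i <;> cases y i <;> simp [sg] <;> linarith
  have h2 : av (fun y : ι → Bool => ∏ i, (1 + ρ * (sg (x i) * sg (y i)))) = 1 := by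
    rw [av_prod (fun i b => 1 + ρ * (sg (x i) * sg b))]
    refine prod_eq_one fun i _ => ?_
    rw [av_bool]; simp [sg]; ring
  refine le_trans (av_mono fun y => ?_) h2.le
  rw [abs_mul, abs_of_nonneg (hk y)]
  exact mul_le_of_le_one_left (hk y) (hf y)

lemma av_heat_chi (ρ : ℝ) (f : (ι → Bool) → ℝ) (S : Finset ι) :
    av (fun x => heat ρ f x * chi S x) = ρ ^ S.card * av (fun y => f y * chi S y) := by
  have e : (fun x => heat ρ f x * chi S x) = fun x =>
      ∑ T : Finset ι, ρ ^ T.card * av (fun y => f y * chi T y) * (chi T x * chi S x) := by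
    funext x
    rw [heat, sum_mul]
    refine sum_congr rfl fun T _ => by ring
  rw [e, av_sum]
  simp only [av_const_mul, av_chi_mul]
  simp

lemma av_heat_symm (ρ : ℝ) (f h : (ι → Bool) → ℝ) :
    av (fun x => f x * heat ρ h x) = av (fun x => heat ρ f x * h x) := by
  have e : ∀ f h : (ι → Bool) → ℝ, av (fun x => f x * heat ρ h x) =
      ∑ T : Finset ι, ρ ^ T.card * (av (fun y => h y * chi T y) * av (fun y => f y * chi T y)) := by
    intro f h
    have e1 : (fun x => f x * heat ρ h x) = fun x =>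
        ∑ T : Finset ι, ρ ^ T.card * av (fun y => h y * chi T y) * (f x * chi T x) := by
      funext x
      rw [heat, mul_sum]
      refine sum_congr rfl fun T _ => by ring
    rw [e1, av_sum]
    refine sum_congr rfl fun T _ => ?_
    rw [av_const_mul]; ring
  rw [e f h]
  have e2 : (fun x => heat ρ f x * h x) = fun x => h x * heat ρ f x := by
    funext x; ring
  rw [e2, e h f]
  refine sum_congr rfl fun T _ => by ring

/-- Fourier expansion of a homogeneous product function. -/
lemma prod_expand (α β : ℝ) (y : ι → Bool) :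
    ∏ j, (α + β * sg (y j)) =
      ∑ T : Finset ι, β ^ T.card * α ^ (Fintype.card ι - T.card) * chi T y := by
  simp only [add_comm α]
  rw [Fintype.prod_add]
  refine sum_congr rfl fun T _ => ?_
  rw [prod_mul_distrib, prod_const, prod_const, card_compl, chi]
  ring

lemma av_prod_hom (α β : ℝ) :
    av (fun y : ι → Bool => ∏ j, (α + β * sg (y j))) = α ^ Fintype.card ι := by
  rw [av_prod (fun _ b => α + β * sg b)]
  have : av (fun b => α + β * sg b) = α := by rw [av_bool]; simp [sg]; ring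
  simp [this]

end Pool.Agent.P.MP_f066c6_an
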