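import Pool.Agent.P.MP_f066c6_an.Dual

/-! The cube split in `N` blocks of `m` bits, and level counts. -/

namespace Pool.Agent.P.MP_f066c6_an

open Finset

variable {N m : ℕ}

/-- The `i`-th block of a point. -/
def blk (x : Fin N × Fin m → Bool) (i : Fin N) : Fin m → Bool := fun j => x (i, j)

/-- Hamming weight. -/
def wt (y : Fin m → Bool) : ℕ := (univ.filter fun j => y j = true).card

/-- Indicator of a level. -/
def ind (k : ℕ) (y : Fin m → Bool) : ℝ := if wt y = k then 1 else 0

/-- Probability of a level. -/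
noncomputable def pr (m k : ℕ) : ℝ := av (fun y : Fin m → Bool => ind k y)

/-- Number of blocks at a given level. -/
def cnt (k : ℕ) (x : Fin N × Fin m → Bool) : ℝ := ∑ i, ind k (blk x i)

/-- Pairing of the centered level count with a function. -/
noncomputable def coef (k : ℕ) (U : (Fin N × Fin m → Bool) → ℝ) : ℝ :=
  av (fun x => (cnt k x - N * pr m k) * U x)

lemma wt_le (y : Fin m → Bool) : wt y ≤ m := by
  simpa [wt] using card_filter_le (univ : Finset (Fin m)) (fun j => y j = true)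

lemma ind_nonneg (k : ℕ) (y : Fin m → Bool) : 0 ≤ ind k y := by
  unfold ind; split_ifs <;> norm_num

lemma ind_le_one (k : ℕ) (y : Fin m → Bool) : ind k y ≤ 1 := by
  unfold ind; split_ifs <;> norm_num

lemma ind_sq (k : ℕ) (y : Fin m → Bool) : ind k y ^ 2 = ind k y := by
  unfold ind; split_ifs <;> norm_num

lemma pr_nonneg (m k : ℕ) : 0 ≤ pr m k := av_nonneg fun y => ind_nonneg k y

lemma pr_eq (m k : ℕ) : pr m k = (m.choose k : ℝ) / 2 ^ m := by
  unfold pr av ind
  rw [sum_boole]
  have h1 : (univ.filter fun y : Fin m → Bool => wt y = k).card =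
      (powersetCard k (univ : Finset (Fin m))).card := by
    refine card_bij (fun y _ => univ.filter fun j => y j = true) ?_ ?_ ?_
    · intro y hy
      rw [mem_powersetCard]
      exact ⟨subset_univ _, (mem_filter.mp hy).2⟩
    · intro y _ y' _ h
      funext j
      have h1 : j ∈ (univ.filter fun j => y j = true) ↔ j ∈ (univ.filter fun j => y' j = true) := by
        rw [show (univ.filter fun j => y j = true) = (univ.filter fun j => y' j = true) from h]
      simp only [mem_filter, mem_univ, true_and] at h1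
      exact Bool.eq_iff_iff.mpr h1
    · intro s hs
      rw [mem_powersetCard] at hs
      refine ⟨fun j => decide (j ∈ s), ?_, ?_⟩
      · refine mem_filter.mpr ⟨mem_univ _, ?_⟩
        rw [← hs.2, wt]
        congr 1
        ext j; simp
      · ext j; simp
  rw [h1, card_powersetCard]
  simp

lemma av_blocks (b : Fin N → (Fin m → Bool) → ℝ) :
    av (fun x : Fin N × Fin m → Bool => ∏ i, b i (blk x i)) = ∏ i, av (b i) := by
  rw [← av_prod, ← av_equiv (Equiv.curry (Fin N) (Fin m) Bool)]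
  rfl

lemma av_one_mul_prod (a b : (Fin m → Bool) → ℝ) (i : Fin N) :
    av (fun x : Fin N × Fin m → Bool => a (blk x i) * ∏ j, b (blk x j)) =
      av (fun y => a y * b y) * (av b) ^ (N - 1) := by
  have e : (fun x : Fin N × Fin m → Bool => a (blk x i) * ∏ j, b (blk x j)) =
      fun x => ∏ j, (fun j y => (if j = i then a y else 1) * b y) j (blk x j) := by
    funext x
    simp only [prod_mul_distrib, prod_ite_eq', mem_univ, if_true]
  rw [e, av_blocks (fun j y => (if j = i then a y else 1) * b y),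
    ← mul_prod_erase univ _ (mem_univ i)]
  simp only [if_true]
  congr 1
  rw [prod_congr rfl (g := fun _ => av b), prod_const, card_erase_of_mem (mem_univ i)]
  · simp
  · intro j hj
    simp [ne_of_mem_erase hj]

lemma av_blk (a : (Fin m → Bool) → ℝ) (i : Fin N) :
    av (fun x : Fin N × Fin m → Bool => a (blk x i)) = av a := by
  simpa [av_const] using av_one_mul_prod a (fun _ => 1) i

lemma av_two (a : (Fin m → Bool) → ℝ) (ha : av a = 0) (i j : Fin N) :
    av (fun x : Fin N × Fin m → Bool => a (blk x i) * a (blk x j)) =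
      if i = j then av (fun y => a y ^ 2) else 0 := by
  split_ifs with h
  · subst h
    rw [← av_blk (N := N) (fun y => a y ^ 2) i]
    simp only [sq]
  · have e : (fun x : Fin N × Fin m → Bool => a (blk x i) * a (blk x j)) =
        fun x => ∏ l, (fun l y => (if l = i then a y else 1) * (if l = j then a y else 1))
          l (blk x l) := by
      funext x
      simp only [prod_mul_distrib, prod_ite_eq', mem_univ, if_true]
    rw [e, av_blocks (fun l y => (if l = i then a y else 1) * (if l = j then a y else 1))]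
    refine prod_eq_zero (mem_univ i) ?_
    simpa [h] using ha

lemma av_sum_sq (a : (Fin m → Bool) → ℝ) (ha : av a = 0) :
    av (fun x : Fin N × Fin m → Bool => (∑ i, a (blk x i)) ^ 2) = N * av (fun y => a y ^ 2) := by
  have e : (fun x : Fin N × Fin m → Bool => (∑ i, a (blk x i)) ^ 2) =
      fun x => ∑ i, ∑ j, a (blk x i) * a (blk x j) := by
    funext x; rw [sq, sum_mul_sum]
  rw [e, av_sum]
  simp only [av_sum, av_two a ha]
  simp

lemma cnt_nonneg (k : ℕ) (x : Fin N × Fin m → Bool) : 0 ≤ cnt k x :=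
  sum_nonneg fun _ _ => ind_nonneg _ _

lemma av_cnt (k : ℕ) : av (fun x : Fin N × Fin m → Bool => cnt k x) = N * pr m k := by
  unfold cnt
  rw [av_sum]
  simp [av_blk, pr]

lemma var_cnt (k : ℕ) :
    av (fun x : Fin N × Fin m → Bool => (cnt k x - N * pr m k) ^ 2) ≤ N * pr m k := by
  have e : (fun x : Fin N × Fin m → Bool => (cnt k x - N * pr m k) ^ 2) =
      fun x => (∑ i, (fun y => ind k y - pr m k) (blk x i)) ^ 2 := by
    funext x; simp [cnt, sum_sub_distrib]
  have h0 : av (fun y : Fin m → Bool => ind k y - pr m k) = 0 := by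
    rw [av_sub, av_const]; simp [pr]
  rw [e, av_sum_sq _ h0]
  refine mul_le_mul_of_nonneg_left ?_ (Nat.cast_nonneg _)
  have e2 : (fun y : Fin m → Bool => (ind k y - pr m k) ^ 2) =
      fun y => (1 - 2 * pr m k) * ind k y + pr m k ^ 2 := by
    funext y
    have := ind_sq k y
    nlinarith
  rw [e2, av_add, av_const_mul, av_const]
  have : av (fun y : Fin m → Bool => ind k y) = pr m k := rfl
  rw [this]
  nlinarith [sq_nonneg (pr m k)]

lemma av_cnt_sq (k : ℕ) :
    av (fun x : Fin N × Fin m → Bool => cnt k x ^ 2) ≤ N * pr m k + (N * pr m k) ^ 2 := by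
  have e : (fun x : Fin N × Fin m → Bool => cnt k x ^ 2) =
      fun x => (cnt k x - N * pr m k) ^ 2 + ((2 * (N * pr m k)) * cnt k x - (N * pr m k) ^ 2) := by
    funext x; ring
  rw [e, av_add, av_sub, av_const_mul, av_cnt, av_const]
  nlinarith [var_cnt (N := N) (m := m) k]

/-- Bound for likely levels. -/
lemma coef_sq_le (k : ℕ) {U : (Fin N × Fin m → Bool) → ℝ} {Y : ℝ} (hY : 0 ≤ Y)
    (h : av (fun x => U x ^ 4) ≤ Y ^ 4) : coef k U ^ 2 ≤ N * pr m k * Y ^ 2 := by
  refine (av_mul_sq_le _ _).trans ?_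
  exact mul_le_mul (var_cnt k) (av_sq_le hY h) (av_nonneg fun x => by positivity)
    (mul_nonneg (Nat.cast_nonneg _) (pr_nonneg _ _))

/-- Bound for rare levels. -/
lemma abs_coef_le (k : ℕ) {U : (Fin N × Fin m → Bool) → ℝ} {Y z : ℝ} (hY : 0 ≤ Y)
    (h : av (fun x => U x ^ 4) ≤ Y ^ 4) (hz0 : 0 ≤ z) (hz1 : z ≤ 1) (hz : N * pr m k ≤ z ^ 4) :
    |coef k U| ≤ 3 * z ^ 3 * Y := by
  set μ : ℝ := N * pr m k with hμ
  have hμ0 : 0 ≤ μ := mul_nonneg (Nat.cast_nonneg _) (pr_nonneg _ _)
  have hz4 : z ^ 4 ≤ 1 := pow_le_one₀ hz0 hz1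
  have h1 : |coef k U| ≤ av (fun x => cnt k x * |U x|) + μ * av (fun x => |U x|) := by
    refine (abs_av_le _).trans ?_
    rw [← av_const_mul, ← av_add]
    refine av_mono fun x => ?_
    rw [abs_mul, ← add_mul]
    refine mul_le_mul_of_nonneg_right ?_ (abs_nonneg _)
    have := cnt_nonneg k x
    rw [abs_le]; constructor <;> linarith
  have h2 := av_weighted_sq_le (fun x : Fin N × Fin m → Bool => cnt k x) (fun x => |U x|)
    (cnt_nonneg k)
  rw [av_cnt] at h2
  simp only [sq_abs] at h2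
  have h3 := av_mul_sq_le (fun x : Fin N × Fin m → Bool => cnt k x) (fun x => U x ^ 2)
  have e : (fun x => (U x ^ 2) ^ 2) = fun x => U x ^ 4 := by funext x; ring
  rw [e] at h3
  have h4 : av (fun x : Fin N × Fin m → Bool => cnt k x ^ 2) ≤ 2 * z ^ 4 := by
    refine (av_cnt_sq k).trans ?_
    rw [← hμ]
    nlinarith
  have h5 : (av fun x => cnt k x * U x ^ 2) ^ 2 ≤ (2 * z ^ 2 * Y ^ 2) ^ 2 := by
    refine h3.trans ?_
    refine (mul_le_mul h4 h (av_nonneg fun x => by positivity) (by positivity)).trans ?_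
    have : 0 ≤ z ^ 4 * Y ^ 4 := by positivity
    nlinarith
  have h6 : (av fun x => cnt k x * U x ^ 2) ≤ 2 * z ^ 2 * Y ^ 2 :=
    (abs_le_of_sq_le_sq' h5 (by positivity)).2
  have h7 : (av fun x => cnt k x * |U x|) ^ 2 ≤ (2 * z ^ 3 * Y) ^ 2 := by
    refine h2.trans ?_
    refine (mul_le_mul hz h6 (av_nonneg fun x => mul_nonneg (cnt_nonneg _ _) (by positivity))
      (by positivity)).trans ?_
    have : 0 ≤ z ^ 6 * Y ^ 2 := by positivity
    nlinarith
  have h8 := (abs_le_of_sq_le_sq' h7 (by positivity)).2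
  have h9 : μ * av (fun x => |U x|) ≤ z ^ 3 * Y := by
    refine mul_le_mul (hz.trans ?_) (av_abs_le hY h) (av_nonneg fun x => abs_nonneg _)
      (by positivity)
    exact pow_le_pow_of_le_one hz0 hz1 (by norm_num)
  linarith

/-- Uniform bound of the coefficients on the annulus. -/
lemma coef_annulus {k k₀ : ℕ} {U : (Fin N × Fin m → Bool) → ℝ} {Y γ r : ℝ} (hY : 0 ≤ Y)
    (h : av (fun x => U x ^ 4) ≤ Y ^ 4) (hγ : 0 ≤ γ) (hr2 : 2 * γ ≤ r) (hr3 : r ≤ 3 * γ)
    (hk : N * pr m k ≤ Real.exp (4 * γ * ((k : ℝ) - k₀))) :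
    |coef k U| * Real.exp (((k₀ : ℝ) - k) * r) ≤ 3 * Y := by
  rcases le_total k₀ k with hle | hle
  · have hle' : (k₀ : ℝ) ≤ k := by exact_mod_cast hle
    have h1 := coef_sq_le k hY h
    have h2 : coef k U ^ 2 ≤ (Real.exp (2 * γ * ((k : ℝ) - k₀)) * Y) ^ 2 := by
      refine h1.trans ?_
      rw [mul_pow, ← Real.exp_nat_mul]
      refine mul_le_mul_of_nonneg_right (hk.trans (le_of_eq ?_)) (by positivity)
      congr 1; push_cast; ring
    have h3 : |coef k U| ≤ Real.exp (2 * γ * ((k : ℝ) - k₀)) * Y :=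
      abs_le.mpr (abs_le_of_sq_le_sq' h2 (by positivity))
    have h4 : Real.exp (2 * γ * ((k : ℝ) - k₀)) * Real.exp (((k₀ : ℝ) - k) * r) ≤ 1 := by
      rw [← Real.exp_add, Real.exp_le_one_iff]
      nlinarith
    calc |coef k U| * Real.exp (((k₀ : ℝ) - k) * r)
        ≤ Real.exp (2 * γ * ((k : ℝ) - k₀)) * Y * Real.exp (((k₀ : ℝ) - k) * r) := by gcongr
      _ = (Real.exp (2 * γ * ((k : ℝ) - k₀)) * Real.exp (((k₀ : ℝ) - k) * r)) * Y := by ring
      _ ≤ 1 * Y := by gcongr
      _ ≤ 3 * Y := by linarith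
  · have hle' : (k : ℝ) ≤ k₀ := by exact_mod_cast hle
    have hz1 : Real.exp (γ * ((k : ℝ) - k₀)) ≤ 1 := by
      rw [Real.exp_le_one_iff]; nlinarith
    have h1 := abs_coef_le k hY h (Real.exp_pos (γ * ((k : ℝ) - k₀))).le hz1 (by
      refine hk.trans (le_of_eq ?_)
      rw [← Real.exp_nat_mul]; congr 1; push_cast; ring)
    have h4 : Real.exp (γ * ((k : ℝ) - k₀)) ^ 3 * Real.exp (((k₀ : ℝ) - k) * r) ≤ 1 := by
      rw [← Real.exp_nat_mul, ← Real.exp_add, Real.exp_le_one_iff]
      push_cast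
      nlinarith
    calc |coef k U| * Real.exp (((k₀ : ℝ) - k) * r)
        ≤ 3 * Real.exp (γ * ((k : ℝ) - k₀)) ^ 3 * Y * Real.exp (((k₀ : ℝ) - k) * r) := by gcongr
      _ = (Real.exp (γ * ((k : ℝ) - k₀)) ^ 3 * Real.exp (((k₀ : ℝ) - k) * r)) * (3 * Y) := by ring
      _ ≤ 1 * (3 * Y) := by gcongr
      _ = 3 * Y := by ring

end Pool.Agent.P.MP_f066c6_an
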