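import Mathlib

/-! A two-constants estimate on a thin rectangle, from the maximum modulus principle. -/

namespace Pool.Agent.P.MP_f066c6_an

open Finset Complex

lemma re_cos (z : ℂ) : (Complex.cos z).re = Real.cos z.re * Real.cosh z.im := by
  rw [Complex.cos_eq]
  simp [← Complex.ofReal_cos, ← Complex.ofReal_cosh, ← Complex.ofReal_sin, ← Complex.ofReal_sinh]

lemma two_const (c : ℕ → ℝ) (m k₀ : ℕ) {γ A η : ℝ} (hγ : 0 < γ) (hη : 0 ≤ η)
    (h1 : ∀ r : ℝ, r = 2 * γ ∨ r = 3 * γ →
      ∑ k ∈ range (m + 1), |c k| * Real.exp (((k₀ : ℝ) - k) * r) ≤ A)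
    (h2 : ∀ r ∈ Set.Icc (2 * γ) (3 * γ),
      |∑ k ∈ range (m + 1), c k * (-Real.exp (-r)) ^ k| * Real.exp (k₀ * r) *
        Real.exp (η * Real.cosh (Real.pi ^ 2 / γ)) ≤ A) :
    |∑ k ∈ range (m + 1), c k * (Real.exp (-(5 * γ / 2))) ^ k| * Real.exp (k₀ * (5 * γ / 2)) *
      Real.exp η ≤ A := by
  set f : ℂ → ℂ := fun z => (∑ k ∈ range (m + 1), (c k : ℂ) * (Complex.exp (-z)) ^ k) *
    Complex.exp (k₀ * z) *
    Complex.exp (η * Complex.cos (((Real.pi / γ : ℝ) : ℂ) * (z - ((5 * γ / 2 : ℝ) : ℂ)))) with hf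
  have hd : Differentiable ℂ f := by
    simp only [hf]; fun_prop
  have hnorm : ∀ z : ℂ, ‖f z‖ =
      ‖∑ k ∈ range (m + 1), (c k : ℂ) * (Complex.exp (-z)) ^ k‖ * Real.exp (k₀ * z.re) *
      Real.exp (η * (Real.cos (Real.pi / γ * (z.re - 5 * γ / 2)) *
        Real.cosh (Real.pi / γ * z.im))) := by
    intro z
    simp only [hf, norm_mul, Complex.norm_exp]
    congr 2
    · simp
    · rw [Complex.re_ofReal_mul, re_cos, Complex.re_ofReal_mul, Complex.im_ofReal_mul]
      simp
  have hU : Bornology.IsBounded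
      (Set.Ioo (2 * γ) (3 * γ) ×ℂ Set.Ioo (-Real.pi) Real.pi) :=
    (Metric.isBounded_Ioo _ _).reProdIm (Metric.isBounded_Ioo _ _)
  have h23 : 2 * γ < 3 * γ := by linarith
  have hpi : -Real.pi < Real.pi := by linarith [Real.pi_pos]
  have key : ‖f ((5 * γ / 2 : ℝ) : ℂ)‖ ≤ A := by
    refine norm_le_of_forall_mem_frontier_norm_le hU hd.diffContOnCl (fun z hz => ?_) ?_
    · rw [frontier_reProdIm, closure_Ioo h23.ne, closure_Ioo hpi.ne, frontier_Ioo h23,
        frontier_Ioo hpi] at hz
      rw [hnorm]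
      rcases hz with ⟨hre, him⟩ | ⟨hre, him⟩
      · -- horizontal sides
        have hre' : z.re ∈ Set.Icc (2 * γ) (3 * γ) := hre
        have him' : z.im = -Real.pi ∨ z.im = Real.pi := by simpa using him
        have hexp : Complex.exp (-z) = ((-Real.exp (-z.re) : ℝ) : ℂ) := by
          rw [Complex.exp_eq_exp_re_mul_sin_add_cos]
          rcases him' with h | h <;> simp [h]
        have hcosh : Real.cosh (Real.pi / γ * z.im) = Real.cosh (Real.pi ^ 2 / γ) := by
          rcases him' with h | h
          · rw [h, ← Real.cosh_neg]; congr 1; ring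
          · rw [h]; congr 1; ring
        have hsum : ‖∑ k ∈ range (m + 1), (c k : ℂ) * (Complex.exp (-z)) ^ k‖ =
            |∑ k ∈ range (m + 1), c k * (-Real.exp (-z.re)) ^ k| := by
          rw [hexp, ← Real.norm_eq_abs, ← Complex.norm_real]
          push_cast
          rfl
        rw [hsum, hcosh]
        refine le_trans ?_ (h2 z.re hre')
        gcongr
        exact mul_le_of_le_one_left (Real.cosh_pos _).le (Real.cos_le_one _)
      · -- vertical sides
        have hre' : z.re = 2 * γ ∨ z.re = 3 * γ := by simpa using hre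
        have hcos : Real.cos (Real.pi / γ * (z.re - 5 * γ / 2)) = 0 := by
          rcases hre' with h | h
          · rw [h, show Real.pi / γ * (2 * γ - 5 * γ / 2) = -(Real.pi / 2) by field_simp; ring,
              Real.cos_neg, Real.cos_pi_div_two]
          · rw [h, show Real.pi / γ * (3 * γ - 5 * γ / 2) = (Real.pi / 2) by field_simp; ring,
              Real.cos_pi_div_two]
        rw [hcos, zero_mul, mul_zero, Real.exp_zero, mul_one]
        refine le_trans ?_ (h1 z.re hre')
        refine le_trans (mul_le_mul_of_nonneg_right (norm_sum_le _ _) (Real.exp_pos _).le) ?_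
        rw [sum_mul]
        refine sum_le_sum fun k _ => le_of_eq ?_
        rw [norm_mul, norm_pow, Complex.norm_exp, Complex.norm_real, Real.norm_eq_abs,
          ← Real.exp_nat_mul, mul_assoc, ← Real.exp_add]
        congr 2
        simp; ring
    · refine subset_closure ?_
      refine ⟨?_, ?_⟩
      · simp only [Set.mem_preimage, Complex.ofReal_re, Set.mem_Ioo]; constructor <;> linarith
      · simp only [Set.mem_preimage, Complex.ofReal_im, Set.mem_Ioo]
        constructor <;> linarith [Real.pi_pos]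
  rw [hnorm] at key
  simp only [Complex.ofReal_re, Complex.ofReal_im, sub_self, mul_zero, Real.cos_zero,
    Real.cosh_zero, mul_one] at key
  have hsum : ‖∑ k ∈ range (m + 1), (c k : ℂ) * (Complex.exp (-((5 * γ / 2 : ℝ) : ℂ))) ^ k‖ =
      |∑ k ∈ range (m + 1), c k * (Real.exp (-(5 * γ / 2))) ^ k| := by
    rw [← Real.norm_eq_abs, ← Complex.norm_real]
    push_cast
    rfl
  rwa [hsum] at key

end Pool.Agent.P.MP_f066c6_an
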