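import Pool.Agent.P.MP_f066c6_an.Poly
import Pool.Agent.P.MP_f066c6_an.TwoConst

/-! The main inequality forced by the smoothing estimate. -/

namespace Pool.Agent.P.MP_f066c6_an

open Finset

lemma coef_sub {N m : ℕ} (k : ℕ) (g q : (Fin N × Fin m → Bool) → ℝ) :
    coef k (fun x => g x - q x) = coef k g - coef k q := by
  unfold coef
  rw [← av_sub]
  congr 1; funext x; ring

lemma two_pow_le_exp (m : ℕ) : (2 : ℝ) ^ m ≤ Real.exp m := by
  rw [← mul_one (m : ℝ), Real.exp_nat_mul]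
  refine pow_le_pow_left₀ (by norm_num) ?_ m
  linarith [Real.add_one_le_exp (1 : ℝ)]

lemma exp_neg_eight : (1 : ℝ) / 3000 ≤ Real.exp (-8) := by
  have h1 : Real.exp 8 ≤ 3000 := by
    have : Real.exp 8 = Real.exp 1 ^ 8 := by rw [← Real.exp_nat_mul]; norm_num
    rw [this]
    calc Real.exp 1 ^ 8 ≤ (2.72 : ℝ) ^ 8 :=
          pow_le_pow_left₀ (Real.exp_pos _).le (by linarith [Real.exp_one_lt_d9]) 8
      _ ≤ 3000 := by norm_num
  rw [Real.exp_neg, one_div]
  exact inv_anti₀ (Real.exp_pos _) h1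

lemma core {a l N : ℕ} (ha : 2000 ≤ a) {γ τ ρ ε : ℝ} (hγ0 : 0 < γ)
    (hγ : Real.exp (-(4 * γ)) = (a : ℝ) / (a + 1)) (hγa : γ ≤ 1 / (4 * a))
    (hτ0 : 0 ≤ τ) (hτ : τ * Real.cosh (Real.pi ^ 2 / γ) ≤ 1) (hρ0 : 0 ≤ ρ) (hρ1 : ρ ≤ 1)
    (hε0 : 0 ≤ ε) (hε1 : ε ≤ 1)
    (hN1 : N * pr ((2 * a + 1) * l) (a * l) ≤ 1 / 2)
    (hN2 : 1 / 4 ≤ N * pr ((2 * a + 1) * l) (a * l))
    (H : Smoothing (Fin N × Fin ((2 * a + 1) * l)) (a * l) ρ ε) (w : ℝ)
    (hw : w = Real.exp (-(5 * γ / 2))) :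
    (((1 + w) / 2 - ρ * ((1 - w) / 2)) ^ (a * l) *
        ((1 + w) / 2 + ρ * ((1 - w) / 2)) ^ ((2 * a + 1) * l - a * l) -
        ((1 + w) / 2) ^ ((2 * a + 1) * l)) * Real.exp ((a * l : ℕ) * (5 * γ / 2)) / 8 ≤
      6 * (((2 * a + 1) * l : ℕ) + 1) * Real.exp (-(((2 * a + 1) * l : ℕ) * τ)) +
        3 * (((2 * a + 1) * l : ℕ) + 1) * ε := by
  set m := (2 * a + 1) * l with hm
  set k₀ := a * l with hk₀
  have ha0 : 0 < a := by omega
  have haR : (2000 : ℝ) ≤ a := by exact_mod_cast ha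
  have hkm : k₀ ≤ m := Nat.mul_le_mul_right _ (by omega)
  obtain ⟨q, hq, hu⟩ := exists_approx hε0 H (test k₀) (abs_test_le k₀)
  set g := heat ρ (test (N := N) (m := m) k₀) with hg
  have hg1 : ∀ x, |g x| ≤ 1 := abs_heat_le hρ0 hρ1 (abs_test_le k₀)
  have hg4 : av (fun x => g x ^ 4) ≤ 1 ^ 4 := by
    refine le_trans (av_mono (G := fun _ => 1) fun x => ?_) (by simp [av_const])
    rw [← Even.pow_abs (by decide)]
    exact pow_le_one₀ (abs_nonneg _) (hg1 x)
  have hlev : ∀ k : ℕ, N * pr m k ≤ Real.exp (4 * γ * ((k : ℝ) - k₀)) := by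
    intro k
    have h1 := choose_mode a l k ha0
    rw [← hγ, ← Real.exp_nat_mul, ← Real.exp_nat_mul] at h1
    have h2 : pr m k ≤ pr m k₀ * Real.exp (4 * γ * ((k : ℝ) - k₀)) := by
      rw [pr_eq, pr_eq, div_mul_eq_mul_div]
      refine div_le_div_of_nonneg_right ?_ (by positivity)
      have h3 := mul_le_mul_of_nonneg_right h1 (Real.exp_pos (4 * γ * k)).le
      rw [mul_assoc _ (Real.exp _), mul_assoc _ (Real.exp _), ← Real.exp_add,
        ← Real.exp_add] at h3
      have e1 : (k : ℝ) * -(4 * γ) + 4 * γ * k = 0 := by ring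
      have e2 : ((a * l : ℕ) : ℝ) * -(4 * γ) + 4 * γ * k = 4 * γ * ((k : ℝ) - k₀) := by
        rw [hk₀]; ring
      rw [e1, e2, Real.exp_zero, mul_one] at h3
      exact h3
    calc N * pr m k ≤ N * (pr m k₀ * Real.exp (4 * γ * ((k : ℝ) - k₀))) := by gcongr
      _ = (N * pr m k₀) * Real.exp (4 * γ * ((k : ℝ) - k₀)) := by ring
      _ ≤ 1 * Real.exp (4 * γ * ((k : ℝ) - k₀)) := by gcongr; linarith
      _ = _ := one_mul _
  have hcq : ∀ k, coef k q = coef k g - coef k (fun x => g x - q x) := by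
    intro k; rw [coef_sub]; ring
  -- the estimate for the low degree part
  have hq2 : av (fun x => |q x|) ≤ 2 := by
    have h1 := av_abs_le (Y := 1) (by norm_num) hg4
    have h2 := av_abs_le hε0 hu
    have h3 : av (fun x => |q x|) ≤ av (fun x => |g x| + |g x - q x|) := by
      refine av_mono fun x => ?_
      have := abs_sub (g x) (g x - q x)
      simpa using this
    rw [av_add] at h3
    linarith
  have hNle : (N : ℝ) ≤ 2 ^ m := by
    have h1 := pr_ge m k₀ hkm
    have h2 : (N : ℝ) * (1 / 2 ^ m) ≤ 1 := by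
      calc (N : ℝ) * (1 / 2 ^ m) ≤ N * pr m k₀ := by gcongr
        _ ≤ 1 := by linarith
    rwa [mul_one_div, div_le_one (by positivity)] at h2
  have hmR : (m : ℝ) = (2 * a + 1) * l := by simp [hm]
  have hkR : (k₀ : ℝ) = a * l := by simp [hk₀]
  have hl0 : (0 : ℝ) ≤ l := Nat.cast_nonneg _
  have hγa' : γ * a ≤ 1 / 4 := by
    rw [le_div_iff₀ (by positivity)] at hγa; linarith
  have T := two_const (fun k => coef k q) m k₀ (A := 6 * (m + 1)) (η := m * τ) hγ0
    (by positivity) ?_ ?_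
  rotate_left
  · intro r hr
    have hr2 : 2 * γ ≤ r := by rcases hr with h | h <;> linarith
    have hr3 : r ≤ 3 * γ := by rcases hr with h | h <;> linarith
    have : ∀ k ∈ range (m + 1), |coef k q| * Real.exp (((k₀ : ℝ) - k) * r) ≤ 6 := by
      intro k _
      have h1 := coef_annulus (k := k) (k₀ := k₀) (by norm_num) hg4 hγ0.le hr2 hr3 (hlev k)
      have h2 := coef_annulus (k := k) (k₀ := k₀) hε0 hu hγ0.le hr2 hr3 (hlev k)
      rw [hcq]
      have h3 := abs_sub (coef k g) (coef k (fun x => g x - q x))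
      have h4 := Real.exp_pos (((k₀ : ℝ) - k) * r)
      nlinarith
    refine (sum_le_sum this).trans (le_of_eq ?_)
    simp; ring
  · rintro r ⟨hr2, hr3⟩
    have hr0 : 0 ≤ r := by linarith
    have he1 : Real.exp (-r) ≤ 1 := by rw [Real.exp_le_one_iff]; linarith
    have he0 := Real.exp_pos (-r)
    have he2 : 1 - r ≤ Real.exp (-r) := by linarith [Real.add_one_le_exp (-r)]
    have hrs : r ≤ 1 / 1500 := by
      have := mul_le_mul_of_nonneg_left haR hγ0.le
      linarith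
    have hs1 : Real.exp (-8) ≤ 1 := by rw [Real.exp_le_one_iff]; norm_num
    have h1 := poly_lowdeg hq hq2 (w := -Real.exp (-r)) (s := Real.exp (-8))
      (by rw [abs_of_nonneg (by linarith)]; linarith [exp_neg_eight]) hs1
      (by rw [abs_of_nonneg (by linarith)]; linarith)
    have h2 : Real.exp (-8) ^ (m - k₀) ≤ Real.exp (-(4 * m)) := by
      rw [← Real.exp_nat_mul, Real.exp_le_exp, Nat.cast_sub hkm, hmR, hkR]
      linarith
    have h3 : Real.exp (k₀ * r) ≤ Real.exp m := by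
      rw [Real.exp_le_exp, hmR, hkR]
      have h6 : (a : ℝ) * r ≤ 1 := by
        have := mul_le_mul_of_nonneg_left hr3 (show (0 : ℝ) ≤ a by linarith)
        linarith
      have h7 := mul_le_mul_of_nonneg_left h6 hl0
      have h8 : (0 : ℝ) ≤ a * l := by positivity
      linarith
    have h4 : Real.exp (m * τ * Real.cosh (Real.pi ^ 2 / γ)) ≤ Real.exp m := by
      rw [Real.exp_le_exp, mul_assoc]
      exact mul_le_of_le_one_right (Nat.cast_nonneg _) hτ
    have h5 := two_pow_le_exp m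
    calc _ ≤ (Real.exp m * (4 * Real.exp m * Real.exp (-(4 * m)))) * Real.exp m * Real.exp m := by
          gcongr
          refine h1.trans ?_
          gcongr
          exact hNle.trans h5
      _ = 4 * (Real.exp m * Real.exp m * Real.exp m * Real.exp m * Real.exp (-(4 * m))) := by ring
      _ = 4 := by
          simp only [← Real.exp_add]
          rw [show (m : ℝ) + m + m + m + -(4 * m) = 0 by ring, Real.exp_zero, mul_one]
      _ ≤ 6 * (m + 1) := by linarith [(Nat.cast_nonneg m : (0 : ℝ) ≤ m)]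
  rw [← hw] at T
  set E := Real.exp (k₀ * (5 * γ / 2)) with hE
  have hE0 : 0 < E := Real.exp_pos _
  have T1 : |∑ k ∈ range (m + 1), coef k q * w ^ k| * E ≤ 6 * (m + 1) * Real.exp (-(m * τ)) := by
    rw [Real.exp_neg, ← div_eq_mul_inv, le_div_iff₀ (Real.exp_pos _)]
    exact T
  have T2 : |∑ k ∈ range (m + 1), coef k (fun x => g x - q x) * w ^ k| * E ≤ 3 * (m + 1) * ε := by
    refine (mul_le_mul_of_nonneg_right (abs_sum_le_sum_abs _ _) hE0.le).trans ?_
    rw [sum_mul]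
    have : ∀ k ∈ range (m + 1), |coef k (fun x => g x - q x) * w ^ k| * E ≤ 3 * ε := by
      intro k _
      have h2 := coef_annulus (k := k) (k₀ := k₀) (r := 5 * γ / 2) hε0 hu hγ0.le (by linarith)
        (by linarith) (hlev k)
      refine le_trans (le_of_eq ?_) h2
      rw [abs_mul, hw, hE, abs_of_nonneg (a := Real.exp _ ^ k) (by positivity), ← Real.exp_nat_mul,
        mul_assoc, ← Real.exp_add]
      congr 2; ring
    refine (sum_le_sum this).trans (le_of_eq ?_)
    simp; ring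
  have T3 := poly_heat_test (N := N) (m := m) k₀ ρ w
  rw [← hg] at T3
  have T4 : ∑ k ∈ range (m + 1), coef k g * w ^ k = ∑ k ∈ range (m + 1), coef k q * w ^ k +
      ∑ k ∈ range (m + 1), coef k (fun x => g x - q x) * w ^ k := by
    rw [← sum_add_distrib]
    refine sum_congr rfl fun k _ => ?_
    rw [coef_sub]; ring
  set D := ((1 + w) / 2 - ρ * ((1 - w) / 2)) ^ k₀ * ((1 + w) / 2 + ρ * ((1 - w) / 2)) ^ (m - k₀) -
    ((1 + w) / 2) ^ m with hD
  have hp0 := pr_nonneg m k₀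
  have hN0 : 1 ≤ N := by
    rcases Nat.eq_zero_or_pos N with h | h
    · rw [h] at hN2; norm_num at hN2
    · exact h
  have hN0' : (1 : ℝ) ≤ N := by exact_mod_cast hN0
  have hB : (1 : ℝ) / 2 ≤ (1 - pr m k₀) ^ (N - 1) := by
    have h1 := one_add_mul_le_pow (a := -pr m k₀) (by nlinarith) (N - 1)
    rw [Nat.cast_sub hN0] at h1
    rw [sub_eq_add_neg]
    push_cast at h1
    nlinarith
  have hC : (1 : ℝ) / 8 ≤ N * pr m k₀ * (1 - pr m k₀) ^ (N - 1) := by
    calc (1 : ℝ) / 8 = 1 / 4 * (1 / 2) := by norm_num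
      _ ≤ _ := by gcongr
  have T5 : |D| / 8 ≤ |∑ k ∈ range (m + 1), coef k g * w ^ k| := by
    rw [T3, abs_neg, abs_mul, abs_of_nonneg (a := N * pr m k₀ * _) (by linarith)]
    nlinarith [abs_nonneg D]
  have T6 := abs_add_le (∑ k ∈ range (m + 1), coef k q * w ^ k)
    (∑ k ∈ range (m + 1), coef k (fun x => g x - q x) * w ^ k)
  rw [← T4] at T6
  have T7 : D ≤ |D| := le_abs_self D
  calc D * E / 8 = D / 8 * E := by ring
    _ ≤ (|∑ k ∈ range (m + 1), coef k q * w ^ k| +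
        |∑ k ∈ range (m + 1), coef k (fun x => g x - q x) * w ^ k|) * E := by
        gcongr; linarith
    _ ≤ _ := by rw [add_mul]; exact add_le_add T1 T2

end Pool.Agent.P.MP_f066c6_an
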