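import Pool.Agent.P.MP_f066c6_an.Basic

/-! Duality: smoothing on the tail space in `L^{4/3}` gives low degree approximation in `L^4`. -/

namespace Pool.Agent.P.MP_f066c6_an

open Finset

variable {ι : Type*} [Fintype ι] [DecidableEq ι]

/-- Functions whose Fourier coefficients vanish in degrees at least `d`. -/
def LowDeg (d : ℕ) (q : (ι → Bool) → ℝ) : Prop :=
  ∀ S : Finset ι, d ≤ S.card → av (fun x => q x * chi S x) = 0

lemma exists_best (d : ℕ) (g : (ι → Bool) → ℝ) :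
    ∃ q : (ι → Bool) → ℝ, LowDeg d q ∧
      ∀ v : (ι → Bool) → ℝ, LowDeg d v → ∑ x, (g x - q x) ^ 4 ≤ ∑ x, (g x - v x) ^ 4 := by
  set Φ : ((ι → Bool) → ℝ) → ℝ := fun q => ∑ x, (g x - q x) ^ 4 with hΦ
  have hΦc : Continuous Φ := by
    simp only [hΦ]; fun_prop
  have hcl : IsClosed {q : (ι → Bool) → ℝ | LowDeg d q} := by
    have : {q : (ι → Bool) → ℝ | LowDeg d q} =
        ⋂ S : Finset ι, ⋂ (_ : d ≤ S.card), {q | av (fun x => q x * chi S x) = 0} := by
      ext q; simp [LowDeg]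
    rw [this]
    refine isClosed_iInter fun S => isClosed_iInter fun _ => ?_
    refine isClosed_eq ?_ continuous_const
    unfold av; fun_prop
  have h0 : LowDeg d (0 : (ι → Bool) → ℝ) := by
    intro S _; simp [av]
  have hΦ0 : 0 ≤ Φ 0 := sum_nonneg fun x _ => by positivity
  set R : ℝ := ‖g‖ + Φ 0 + 1 with hR
  have hK : IsCompact ({q : (ι → Bool) → ℝ | LowDeg d q} ∩ Metric.closedBall 0 R) :=
    (isCompact_closedBall 0 R).inter_left hcl
  have h0K : (0 : (ι → Bool) → ℝ) ∈ {q : (ι → Bool) → ℝ | LowDeg d q} ∩ Metric.closedBall 0 R :=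
    ⟨h0, Metric.mem_closedBall_self (by positivity)⟩
  obtain ⟨q, hqK, hq⟩ := hK.exists_isMinOn ⟨0, h0K⟩ hΦc.continuousOn
  refine ⟨q, hqK.1, fun v hv => ?_⟩
  by_cases hvR : v ∈ Metric.closedBall (0 : (ι → Bool) → ℝ) R
  · exact hq ⟨hv, hvR⟩
  · have h1 : Φ q ≤ Φ 0 := hq h0K
    refine h1.trans ?_
    rw [mem_closedBall_zero_iff, pi_norm_le_iff_of_nonneg (by positivity)] at hvR
    push Not at hvR
    obtain ⟨x, hx⟩ := hvR
    have hg : ‖g x‖ ≤ ‖g‖ := norm_le_pi_norm g x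
    rw [Real.norm_eq_abs] at hx hg
    have h2 : Φ 0 + 1 ≤ |g x - v x| := by
      have := abs_sub_abs_le_abs_sub (v x) (g x)
      rw [abs_sub_comm] at this
      linarith
    have h3 : Φ 0 + 1 ≤ (g x - v x) ^ 4 := by
      have h4 : (1 : ℝ) ≤ |g x - v x| := by linarith
      calc Φ 0 + 1 ≤ |g x - v x| := h2
        _ ≤ |g x - v x| ^ 4 := le_self_pow₀ h4 (by norm_num)
        _ = (g x - v x) ^ 4 := by rw [← abs_pow]; exact abs_of_nonneg (by positivity)
    have h5 : (g x - v x) ^ 4 ≤ ∑ y, (g y - v y) ^ 4 :=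
      single_le_sum (f := fun y => (g y - v y) ^ 4) (fun y _ => by positivity) (mem_univ x)
    linarith

lemma first_order {α : Type*} [Fintype α] (u v : α → ℝ)
    (h : ∀ s : ℝ, ∑ x, u x ^ 4 ≤ ∑ x, (u x - s * v x) ^ 4) : ∑ x, u x ^ 3 * v x = 0 := by
  have hd : HasDerivAt (fun s : ℝ => ∑ x, (u x - s * v x) ^ 4)
      (∑ x, (4 * (u x - 0 * v x) ^ 3 * (-(v x)))) 0 := by
    refine HasDerivAt.fun_sum fun x _ => ?_
    have h1 : HasDerivAt (fun s : ℝ => u x - s * v x) (-(v x)) 0 := by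
      simpa using ((hasDerivAt_id (0 : ℝ)).mul_const (v x)).const_sub (u x)
    simpa using h1.fun_pow 4
  have hmin : IsLocalMin (fun s : ℝ => ∑ x, (u x - s * v x) ^ 4) 0 :=
    Filter.Eventually.of_forall fun s => by simpa using h s
  have := hmin.hasDerivAt_eq_zero hd
  have e : ∑ x, (4 * (u x - 0 * v x) ^ 3 * (-(v x))) = -4 * ∑ x, u x ^ 3 * v x := by
    rw [mul_sum]; exact sum_congr rfl fun x _ => by ring
  rw [e] at this
  linarith

/-- The smoothing estimate in `L^{4/3}` on the tail space of order `d`. -/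
def Smoothing (ι : Type*) [Fintype ι] [DecidableEq ι] (d : ℕ) (ρ ε : ℝ) : Prop :=
  ∀ f : (ι → Bool) → ℝ, (∀ S : Finset ι, S.card < d → ∑ x, f x * chi S x = 0) →
    (∑ x, |heat ρ f x| ^ (4 / 3 : ℝ)) ^ (1 / (4 / 3 : ℝ)) ≤
      ε * (∑ x, |f x| ^ (4 / 3 : ℝ)) ^ (1 / (4 / 3 : ℝ))

lemma exists_approx {d : ℕ} {ρ ε : ℝ} (hε : 0 ≤ ε) (H : Smoothing ι d ρ ε)
    (h : (ι → Bool) → ℝ) (hh : ∀ x, |h x| ≤ 1) :
    ∃ q : (ι → Bool) → ℝ, LowDeg d q ∧ av (fun x => (heat ρ h x - q x) ^ 4) ≤ ε ^ 4 := by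
  obtain ⟨q, hq, hmin⟩ := exists_best d (heat ρ h)
  refine ⟨q, hq, ?_⟩
  set u : (ι → Bool) → ℝ := fun x => heat ρ h x - q x with hu
  have hfo : ∀ v, LowDeg d v → ∑ x, u x ^ 3 * v x = 0 := by
    intro v hv
    refine first_order u v fun s => ?_
    have hl : LowDeg d (fun x => q x + s * v x) := by
      intro S hS
      have e : (fun x => (q x + s * v x) * chi S x) =
          fun x => q x * chi S x + s * (v x * chi S x) := by funext x; ring
      rw [e, av_add, av_const_mul, hq S hS, hv S hS]; simp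
    refine (hmin _ hl).trans (le_of_eq (sum_congr rfl fun x _ => ?_))
    simp only [hu]; ring
  have htail : ∀ S : Finset ι, S.card < d → ∑ x, u x ^ 3 * chi S x = 0 := by
    intro S hS
    refine hfo _ fun T hT => ?_
    rw [av_chi_mul, if_neg]
    rintro rfl
    omega
  have H1 := H (fun x => u x ^ 3) htail
  set Z : ℝ := ∑ x, u x ^ 4 with hZ
  have hZ0 : 0 ≤ Z := sum_nonneg fun x _ => by positivity
  set c : ℝ := (Fintype.card (ι → Bool) : ℝ) with hc
  have hc0 : 0 < c := by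
    rw [hc]; exact_mod_cast Fintype.card_pos
  have e1 : ∑ x, |u x ^ 3| ^ (4 / 3 : ℝ) = Z := by
    refine sum_congr rfl fun x _ => ?_
    rw [abs_pow, ← Real.rpow_natCast, ← Real.rpow_mul (abs_nonneg _)]
    norm_num
    exact Even.pow_abs (by decide) _
  rw [e1] at H1
  have e2 : Z = ∑ x, heat ρ (fun x => u x ^ 3) x * h x := by
    have h1 := av_heat_symm ρ (fun x => u x ^ 3) h
    unfold av at h1
    rw [div_left_inj' hc0.ne'] at h1
    rw [← h1]
    have h2 := hfo q hq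
    have h3 : Z = ∑ x, u x ^ 3 * heat ρ h x - ∑ x, u x ^ 3 * q x := by
      rw [← sum_sub_distrib]
      refine sum_congr rfl fun x _ => ?_
      simp only [hu]; ring
    rw [h3, h2, sub_zero]
  have hconj : (4 / 3 : ℝ).HolderConjugate 4 := by
    rw [Real.holderConjugate_iff]; norm_num
  have H2 := Real.inner_le_Lp_mul_Lq univ (heat ρ (fun x => u x ^ 3)) h hconj
  rw [← e2] at H2
  have H3 : (∑ x, |h x| ^ (4 : ℝ)) ^ (1 / (4 : ℝ)) ≤ c ^ (1 / (4 : ℝ)) := by
    refine Real.rpow_le_rpow (sum_nonneg fun x _ => by positivity) ?_ (by norm_num)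
    calc ∑ x, |h x| ^ (4 : ℝ) ≤ ∑ _x : ι → Bool, (1 : ℝ) :=
          sum_le_sum fun x _ => Real.rpow_le_one (abs_nonneg _) (hh x) (by norm_num)
      _ = c := by simp [hc]
  have H4 : Z ≤ ε * Z ^ (1 / (4 / 3 : ℝ)) * c ^ (1 / (4 : ℝ)) :=
    H2.trans (mul_le_mul H1 H3 (by positivity) (by positivity))
  have H5 : Z ^ 4 ≤ ε ^ 4 * Z ^ 3 * c := by
    have := pow_le_pow_left₀ hZ0 H4 4
    rw [mul_pow, mul_pow, ← Real.rpow_natCast (Z ^ _), ← Real.rpow_natCast (c ^ _),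
      ← Real.rpow_mul hZ0, ← Real.rpow_mul hc0.le] at this
    norm_num at this
    exact this
  show Z / c ≤ ε ^ 4
  rw [div_le_iff₀ hc0]
  rcases hZ0.eq_or_lt with h0 | h0
  · rw [← h0]; positivity
  · have : Z ^ 3 * Z ≤ Z ^ 3 * (ε ^ 4 * c) := by nlinarith
    exact le_of_mul_le_mul_left this (by positivity)

end Pool.Agent.P.MP_f066c6_an
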