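import Pool.Agent.P.MP_f066c6_an.Poly

/-! Fourier multipliers, resolvent powers and duality in `L^p`. -/

namespace Pool.Agent.P.MP_f066c6_an

open Finset

section nrm
variable {α : Type*} [Fintype α] {p : ℝ}

/-- Normalised `L^p` norm. -/
noncomputable def nrm (p : ℝ) (f : α → ℝ) : ℝ := (av fun x => |f x| ^ p) ^ (1 / p)

lemma nrm_nonneg (f : α → ℝ) : 0 ≤ nrm p f :=
  Real.rpow_nonneg (av_nonneg fun _ => by positivity) _

lemma nrm_eq (f : α → ℝ) :
    nrm p f = (∑ x, |f x| ^ p) ^ (1 / p) / (Fintype.card α : ℝ) ^ (1 / p) := by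
  unfold nrm av
  rw [Real.div_rpow (sum_nonneg fun _ _ => by positivity) (Nat.cast_nonneg _)]

lemma nrm_add (hp : 1 ≤ p) (f g : α → ℝ) : nrm p (fun x => f x + g x) ≤ nrm p f + nrm p g := by
  simp only [nrm_eq]
  rw [← add_div]
  exact div_le_div_of_nonneg_right (Real.Lp_add_le univ f g hp) (by positivity)

lemma nrm_mul (hp : 1 ≤ p) (c : ℝ) (f : α → ℝ) : nrm p (fun x => c * f x) = |c| * nrm p f := by
  have hp0 : p ≠ 0 := by linarith
  unfold nrm
  simp only [abs_mul, Real.mul_rpow (abs_nonneg _) (abs_nonneg _)]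
  rw [av_const_mul, Real.mul_rpow (by positivity) (av_nonneg fun _ => by positivity), one_div,
    Real.rpow_rpow_inv (abs_nonneg _) hp0]

lemma av_rpow_le [Nonempty α] {s : ℝ} (hs : 1 ≤ s) (G : α → ℝ) (hG : ∀ x, 0 ≤ G x) :
    av G ^ s ≤ av fun x => G x ^ s := by
  have hc : (0 : ℝ) < Fintype.card α := by exact_mod_cast Fintype.card_pos
  have h := Real.rpow_arith_mean_le_arith_mean_rpow univ (fun _ : α => 1 / (Fintype.card α : ℝ)) G
    (fun _ _ => by positivity) (by simp) (fun x _ => hG x) hs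
  simp only [← mul_sum] at h
  unfold av
  rwa [div_eq_inv_mul, div_eq_inv_mul, ← one_div]

lemma nrm_le_of (hp : 1 ≤ p) {f : α → ℝ} {z : ℝ} (hz : 0 ≤ z)
    (h : av (fun x => |f x| ^ p) ≤ z ^ p) : nrm p f ≤ z := by
  have hp0 : p ≠ 0 := by linarith
  refine (Real.rpow_le_rpow (av_nonneg fun _ => by positivity) h (by positivity)).trans_eq ?_
  rw [one_div, Real.rpow_rpow_inv hz hp0]

lemma av_abs_le_nrm [Nonempty α] (hp : 1 ≤ p) (f : α → ℝ) : av (fun x => |f x|) ≤ nrm p f := by
  have hp0 : p ≠ 0 := by linarith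
  have h0 : 0 ≤ av fun x => |f x| := av_nonneg fun _ => abs_nonneg _
  have := Real.rpow_le_rpow (by positivity) (av_rpow_le hp _ fun x => abs_nonneg (f x))
    (show 0 ≤ 1 / p by positivity)
  rwa [one_div, Real.rpow_rpow_inv h0 hp0, ← one_div] at this

lemma nrm_le_two [Nonempty α] (hp : 1 ≤ p) (hp2 : p ≤ 2) {f : α → ℝ} {z : ℝ} (hz : 0 ≤ z)
    (h : av (fun x => f x ^ 2) ≤ z ^ 2) : nrm p f ≤ z := by
  have hp0 : 0 < p := by linarith
  have h1 := av_rpow_le (s := 2 / p) (by rwa [one_le_div hp0]) (fun x => |f x| ^ p)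
    fun x => by positivity
  have e : (fun x => (|f x| ^ p) ^ (2 / p)) = fun x => f x ^ 2 := by
    funext x
    rw [← Real.rpow_mul (abs_nonneg _), mul_div_cancel₀ _ hp0.ne', Real.rpow_two, sq_abs]
  rw [e] at h1
  refine (abs_le_of_sq_le_sq' (le_trans (le_of_eq ?_) (h1.trans h)) hz).2
  rw [nrm, ← Real.rpow_two, ← Real.rpow_mul (av_nonneg fun _ => by positivity)]
  congr 1; ring

/-- Bound of the dual norm. -/
def Bd (p : ℝ) (U : α → ℝ) (Y : ℝ) : Prop := ∀ f : α → ℝ, |av fun x => f x * U x| ≤ Y * nrm p f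

lemma bd_one [Nonempty α] (hp : 1 ≤ p) {g : α → ℝ} (hg : ∀ x, |g x| ≤ 1) : Bd p g 1 := by
  intro f
  rw [one_mul]
  refine (abs_av_le _).trans (le_trans (av_mono fun x => ?_) (av_abs_le_nrm hp f))
  rw [abs_mul]
  exact mul_le_of_le_one_right (abs_nonneg _) (hg x)

lemma Bd.av_abs [Nonempty α] (hp : 1 ≤ p) {U : α → ℝ} {Y : ℝ} (hY : 0 ≤ Y) (h : Bd p U Y) :
    av (fun x => |U x|) ≤ Y := by
  have h1 := h fun x => if 0 ≤ U x then 1 else -1
  have e : (fun x => (if 0 ≤ U x then (1 : ℝ) else -1) * U x) = fun x => |U x| := by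
    funext x
    split_ifs with h0
    · rw [one_mul, abs_of_nonneg h0]
    · rw [abs_of_neg (not_le.1 h0)]; ring
  have h2 : nrm p (fun x => if 0 ≤ U x then (1 : ℝ) else -1) ≤ 1 := by
    refine nrm_le_of hp zero_le_one (le_trans (av_mono (G := fun _ => 1) fun x => ?_) ?_)
    · split_ifs <;> simp
    · simp [av_const]
  rw [e] at h1
  exact (le_abs_self _).trans (h1.trans (mul_le_of_le_one_right hY h2))

end nrm

/-- Resolvent multiplier. -/
noncomputable def res (n M j : ℕ) : ℝ := (((n : ℝ) + 1) / (n + 1 + j)) ^ M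

lemma res_pos {κ : Type*} [Fintype κ] (j : κ → ℕ) (n M : ℕ) : ∀ A : κ → ℝ,
    (∀ ρ : ℝ, 0 ≤ ρ → ρ ≤ 1 → 0 ≤ ∑ i, A i * ρ ^ j i) → 0 ≤ ∑ i, A i * res n M (j i) := by
  induction M with
  | zero => intro A h; simpa [res] using h 1 zero_le_one le_rfl
  | succ M ih =>
    intro A h
    have := ih (fun i => A i * (((n : ℝ) + 1) / (n + 1 + j i))) fun ρ h0 h1 => ?_
    · refine this.trans_eq (sum_congr rfl fun i _ => ?_)
      simp only [res, pow_succ]; ring
    · have hi : 0 ≤ ∫ s in (0 : ℝ)..1, ∑ i, (((n : ℝ) + 1) * A i * ρ ^ j i) * s ^ (n + j i) := by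
        refine intervalIntegral.integral_nonneg zero_le_one fun s hs => ?_
        have h2 := h (ρ * s) (mul_nonneg h0 hs.1) (mul_le_one₀ h1 hs.1 hs.2)
        have h3 := mul_nonneg (show 0 ≤ ((n : ℝ) + 1) * s ^ n by have := hs.1; positivity) h2
        refine h3.trans_eq ?_
        rw [mul_sum]
        refine sum_congr rfl fun i _ => ?_
        rw [mul_pow, pow_add]; ring
      rw [intervalIntegral.integral_finsetSum fun i _ => Continuous.intervalIntegrable
        (by fun_prop) _ _] at hi
      refine hi.trans_eq (sum_congr rfl fun i _ => ?_)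
      rw [intervalIntegral.integral_const_mul, integral_pow]
      push_cast
      simp
      field_simp
      ring

lemma res_ge {κ : Type*} [Fintype κ] (j : κ → ℕ) (n M K : ℕ) (A : κ → ℝ) (X c : ℝ)
    (h : ∀ ρ : ℝ, 0 ≤ ρ → ρ ≤ 1 → X * ρ ^ K ≤ c + ∑ i, A i * ρ ^ j i) :
    X * res n M K ≤ c + ∑ i, A i * res n M (j i) := by
  have := res_pos (κ := Option (Option κ)) (fun o => o.elim 0 fun o => o.elim K j) n M
    (fun o => o.elim c fun o => o.elim (-X) A) fun ρ h0 h1 => by
      have := h ρ h0 h1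
      simp only [Fintype.sum_option, Option.elim, pow_zero]
      linarith
  have e : res n M 0 = 1 := by
    have : ((n : ℝ) + 1) ≠ 0 := by positivity
    simp [res, this]
  simp only [Fintype.sum_option, Option.elim, e] at this
  linarith

variable {ι : Type*} [Fintype ι] [DecidableEq ι] {p : ℝ}

/-- Fourier multiplier depending on the degree. -/
noncomputable def mulT (μ : ℕ → ℝ) (f : (ι → Bool) → ℝ) (x : ι → Bool) : ℝ :=
  ∑ S : Finset ι, μ S.card * av (fun y => f y * chi S y) * chi S x

lemma av_mulT (μ : ℕ → ℝ) (f h : (ι → Bool) → ℝ) : av (fun x => f x * mulT μ h x) =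
    ∑ T : Finset ι, μ T.card * (av (fun y => h y * chi T y) * av (fun y => f y * chi T y)) := by
  have e1 : (fun x => f x * mulT μ h x) = fun x =>
      ∑ T : Finset ι, μ T.card * av (fun y => h y * chi T y) * (f x * chi T x) := by
    funext x
    rw [mulT, mul_sum]
    refine sum_congr rfl fun T _ => by ring
  rw [e1, av_sum]
  refine sum_congr rfl fun T _ => ?_
  rw [av_const_mul]; ring

lemma av_mulT_chi (μ : ℕ → ℝ) (f : (ι → Bool) → ℝ) (S : Finset ι) :
    av (fun x => mulT μ f x * chi S x) = μ S.card * av (fun y => f y * chi S y) := by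
  simp only [mul_comm (mulT μ f _)]
  rw [av_mulT]
  simp [av_chi_mul]

lemma mulT_one (f : (ι → Bool) → ℝ) : mulT (fun _ => 1) f = f := by
  funext x
  have h := heat_eq_kernel 1 f x
  simp only [heat, one_pow] at h
  rw [mulT, h, av, sum_eq_single x]
  · simp only [sg_sq, one_mul, prod_const, card_univ, Fintype.card_fun, Fintype.card_bool]
    push_cast
    norm_num
  · intro y _ hy
    obtain ⟨i, hi⟩ := Function.ne_iff.1 hy
    rw [prod_eq_zero (mem_univ i), mul_zero]
    revert hi
    cases x i <;> cases y i <;> simp [sg]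
  · simp

lemma abs_res_le (n M : ℕ) {f : (ι → Bool) → ℝ} (hf : ∀ y, |f y| ≤ 1) (x : ι → Bool) :
    |mulT (res n M) f x| ≤ 1 := by
  have key : ∀ s : ℝ, |s| = 1 → 0 ≤ 1 + s * mulT (res n M) f x := by
    intro s hs
    have := res_ge (fun S : Finset ι => S.card) n M 0
      (fun S => s * (av (fun y => f y * chi S y) * chi S x)) 0 1 fun ρ h0 h1 => by
        have h2 := abs_heat_le h0 h1 hf x
        have h3 : |s * heat ρ f x| ≤ 1 := by rwa [abs_mul, hs, one_mul]
        have e : ∑ S : Finset ι, s * (av (fun y => f y * chi S y) * chi S x) * ρ ^ S.card =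
            s * heat ρ f x := by
          rw [heat, mul_sum]; exact sum_congr rfl fun S _ => by ring
        rw [e]
        linarith [(abs_le.1 h3).1]
    rw [zero_mul] at this
    refine this.trans_eq ?_
    rw [mulT, mul_sum]
    congr 1
    exact sum_congr rfl fun S _ => by ring
  have h1 := key 1 (by simp)
  have h2 := key (-1) (by simp)
  rw [abs_le]; constructor <;> linarith

/-- The tail space. -/
def Tail (d : ℕ) (f : (ι → Bool) → ℝ) : Prop :=
  ∀ S : Finset ι, S.card < d → av (fun x => f x * chi S x) = 0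

/-- Lower bound for the Laplacian on the tail space. -/
def LapBd (ι : Type*) [Fintype ι] [DecidableEq ι] (p : ℝ) (d : ℕ) (L : ℝ) : Prop :=
  ∀ f : (ι → Bool) → ℝ, Tail d f → L * nrm p f ≤ nrm p (mulT (fun j => j) f)

lemma LapBd.res_le (hp : 1 ≤ p) {d n : ℕ} (H : LapBd ι p d (3 * (n + 1))) (M : ℕ)
    {f : (ι → Bool) → ℝ} (hf : Tail d f) :
    nrm p (mulT (res n M) f) ≤ (1 / 2) ^ M * nrm p f := by
  induction M with
  | zero =>
    have : res n 0 = fun _ => 1 := by funext j; simp [res]
    rw [this, mulT_one]; simp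
  | succ M ih =>
    have h1 := H (mulT (res n (M + 1)) f) fun S hS => by rw [av_mulT_chi, hf S hS, mul_zero]
    have e : mulT (fun j => (j : ℝ)) (mulT (res n (M + 1)) f) = fun x =>
        ((n : ℝ) + 1) * mulT (res n M) f x + -((n : ℝ) + 1) * mulT (res n (M + 1)) f x := by
      funext x
      rw [mulT]
      simp only [av_mulT_chi]
      rw [mulT, mulT, mul_sum, mul_sum, ← sum_add_distrib]
      refine sum_congr rfl fun S _ => ?_
      simp only [res, pow_succ]
      field_simp
      ring
    have hn : (0 : ℝ) < n + 1 := by positivity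
    rw [e] at h1
    have h2 := h1.trans (nrm_add hp _ _)
    rw [nrm_mul hp, nrm_mul hp, abs_neg, abs_of_pos hn] at h2
    have h3 : ((n : ℝ) + 1) * (2 * nrm p (mulT (res n (M + 1)) f)) ≤
        (n + 1) * nrm p (mulT (res n M) f) := by linarith
    have h4 := le_of_mul_le_mul_left h3 hn
    rw [pow_succ]
    linarith

lemma exists_approx' (hp : 1 ≤ p) {d : ℕ} {μ : ℕ → ℝ} {ε : ℝ} (hε : 0 ≤ ε)
    (H : ∀ f : (ι → Bool) → ℝ, Tail d f → nrm p (mulT μ f) ≤ ε * nrm p f)
    (h : (ι → Bool) → ℝ) (hh : ∀ x, |h x| ≤ 1) :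
    ∃ q : (ι → Bool) → ℝ, LowDeg d q ∧ Bd p (fun x => mulT μ h x - q x) ε := by
  let V : Submodule ℝ ((ι → Bool) → ℝ) :=
    { carrier := {f | Tail d f}
      add_mem' := fun {f g} hf hg S hS => by
        simp only [Pi.add_apply, add_mul]
        rw [av_add, hf S hS, hg S hS, add_zero]
      zero_mem' := fun S _ => by simp [av]
      smul_mem' := fun c f hf S hS => by
        simp only [Pi.smul_apply, smul_eq_mul, mul_assoc]
        rw [av_const_mul, hf S hS, mul_zero] }
  let Λ : ((ι → Bool) → ℝ) →ₗ[ℝ] ℝ :=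
    { toFun := fun f => av fun x => f x * mulT μ h x
      map_add' := fun f g => by simp only [Pi.add_apply, add_mul, av_add]
      map_smul' := fun c f => by
        simp only [Pi.smul_apply, smul_eq_mul, mul_assoc, av_const_mul, RingHom.id_apply] }
  obtain ⟨g, hg1, hg2⟩ := exists_extension_of_le_sublinear (Λ.toPMap V) (fun f => ε * nrm p f)
    (fun c hc f => by
      have := nrm_mul hp c f
      rw [abs_of_pos hc] at this
      show ε * nrm p (fun x => c * f x) = _
      rw [this]; ring)
    (fun f f' => by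
      have := mul_le_mul_of_nonneg_left (nrm_add hp f f') hε
      rw [mul_add] at this
      exact this)
    (fun f => by
      have e : av (fun x => f.1 x * mulT μ h x) = av fun x => mulT μ f.1 x * h x := by
        simp only [mul_comm (mulT μ f.1 _)]
        rw [av_mulT, av_mulT]
        exact sum_congr rfl fun T _ => by ring
      show av (fun x => f.1 x * mulT μ h x) ≤ _
      rw [e]
      have := bd_one hp hh (mulT μ f.1)
      rw [one_mul] at this
      exact (le_abs_self _).trans (this.trans (H _ f.2)))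
  have hc : (0 : ℝ) < Fintype.card (ι → Bool) := by exact_mod_cast Fintype.card_pos
  set u : (ι → Bool) → ℝ := fun x => Fintype.card (ι → Bool) * g (fun j => if x = j then 1 else 0) with hu
  have hr : ∀ f : (ι → Bool) → ℝ, av (fun x => f x * u x) = g f := by
    intro f
    rw [LinearMap.pi_apply_eq_sum_univ g f, av, sum_div]
    refine sum_congr rfl fun x _ => ?_
    simp only [hu, smul_eq_mul]
    field_simp
  refine ⟨fun x => mulT μ h x - u x, fun S hS => ?_, fun f => ?_⟩
  · have h1 := hg1 ⟨chi S, fun T hT => by rw [av_chi_mul, if_neg]; rintro rfl; omega⟩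
    simp only [mul_comm _ (chi S _), mul_sub]
    rw [av_sub, hr, sub_eq_zero]
    exact h1.symm
  · simp only [sub_sub_cancel]
    rw [hr, abs_le]
    refine ⟨?_, hg2 f⟩
    have h1 := hg2 fun x => -1 * f x
    rw [nrm_mul hp, show (fun x => -1 * f x) = -f by funext x; simp, map_neg] at h1
    simp only [abs_neg, abs_one, one_mul] at h1
    linarith

lemma LapBd.transfer {κ : Type*} [Fintype κ] [DecidableEq κ] (e : ι ≃ κ) {d : ℕ} {L : ℝ}
    (H : LapBd κ p d L) : LapBd ι p d L := by
  intro f hf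
  let E : (κ → Bool) ≃ (ι → Bool) :=
    { toFun := fun x i => x (e i)
      invFun := fun y k => y (e.symm k)
      left_inv := fun x => by funext k; simp
      right_inv := fun y => by funext i; simp }
  have hE : ∀ (S : Finset ι) x, chi (e.finsetCongr S) x = chi S (E x) := fun S x => by
    simp [chi, E]
  have hA : ∀ S : Finset ι, av (fun x => f (E x) * chi (e.finsetCongr S) x) =
      av fun y => f y * chi S y := fun S => by
    simp only [hE]
    exact av_equiv E fun y => f y * chi S y
  have h1 := H (fun x => f (E x)) fun T hT => by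
    obtain ⟨S, rfl⟩ := e.finsetCongr.surjective T
    rw [hA, hf S (by simpa using hT)]
  have h3 : mulT (fun j => (j : ℝ)) (fun x => f (E x)) = fun x => mulT (fun j => j) f (E x) := by
    funext x
    rw [mulT, mulT, ← Equiv.sum_comp e.finsetCongr]
    refine sum_congr rfl fun S _ => ?_
    rw [hA, hE]
    simp
  have h4 : ∀ F : (ι → Bool) → ℝ, nrm p (fun x => F (E x)) = nrm p F := fun F => by
    unfold nrm
    rw [av_equiv E fun y => |F y| ^ p]
  rwa [h3, h4, h4] at h1

end Pool.Agent.P.MP_f066c6_an
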