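import Pool.Agent.P.MP_f066c6_an.Core

/-! Choice of the parameters: the smoothing estimate fails in `L^{4/3}`. -/

namespace Pool.Agent.P.MP_f066c6_an

open Finset

lemma Smoothing.transfer {ι κ : Type*} [Fintype ι] [DecidableEq ι] [Fintype κ] [DecidableEq κ]
    (e : ι ≃ κ) {d : ℕ} {ρ ε : ℝ} (H : Smoothing κ d ρ ε) : Smoothing ι d ρ ε := by
  intro f hf
  let E : (κ → Bool) ≃ (ι → Bool) :=
    { toFun := fun x i => x (e i)
      invFun := fun y k => y (e.symm k)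
      left_inv := fun x => by funext k; simp
      right_inv := fun y => by funext i; simp }
  have hE : ∀ x i, E x i = x (e i) := fun _ _ => rfl
  have h1 := H (fun x => f (E x)) (by
    intro S hS
    have h2 := hf (S.map e.symm.toEmbedding) (by simpa using hS)
    rw [← Equiv.sum_comp E] at h2
    rw [← h2]
    refine sum_congr rfl fun x _ => ?_
    simp [chi, hE])
  have h3 : ∀ x, heat ρ (fun x => f (E x)) x = heat ρ f (E x) := by
    intro x
    rw [heat_eq_kernel, heat_eq_kernel, ← av_equiv E]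
    congr 1
    funext y
    congr 1
    simp only [hE]
    exact (Equiv.prod_comp e (fun k => 1 + ρ * (sg (x k) * sg (y k)))).symm
  simp only [h3] at h1
  rw [Equiv.sum_comp E (fun x => |heat ρ f x| ^ (4 / 3 : ℝ)),
    Equiv.sum_comp E (fun x => |f x| ^ (4 / 3 : ℝ))] at h1
  exact h1

lemma lower_G {a l : ℕ} {w ρ τ : ℝ} (hw0 : 0 < w) (hw1 : w ≤ 1) (hρ1 : ρ ≤ 1) (hρ : 1 - ρ ≤ τ)
    (hτ : τ ≤ 1 / 32) (hβ : a * ((1 - w) / 2) ≤ 5 / 16) :
    Real.exp (-(4 * τ * ((1 - w) / 2) * l)) * w ^ (a * l) ≤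
      ((1 + w) / 2 - ρ * ((1 - w) / 2)) ^ (a * l) *
        ((1 + w) / 2 + ρ * ((1 - w) / 2)) ^ ((2 * a + 1) * l - a * l) := by
  set β := (1 - w) / 2 with hβd
  set y := (1 - ρ) * β with hy
  have hβ0 : 0 ≤ β := by rw [hβd]; linarith
  have hβ1 : β ≤ 1 / 2 := by rw [hβd]; linarith
  have hy0 : 0 ≤ y := mul_nonneg (by linarith) hβ0
  have hyτ : y ≤ τ * β := mul_le_mul_of_nonneg_right hρ hβ0
  have hyβ : y ≤ β / 32 := by nlinarith
  have e1 : (1 + w) / 2 + ρ * β = 1 - y := by rw [hy, hβd]; ring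
  have e2 : w * (1 + y) ≤ (1 + w) / 2 - ρ * β := by
    have : (1 + w) / 2 - ρ * β = w + y := by rw [hy, hβd]; ring
    rw [this]; nlinarith
  have e3 : (2 * a + 1) * l - a * l = (a + 1) * l := by
    rw [← Nat.sub_mul]; congr 1; omega
  rw [e1, e3]
  have h1 : 1 - y ≤ (1 - y ^ 2) ^ a := by
    have h2 := one_add_mul_le_pow (a := -y ^ 2) (by nlinarith) a
    have h3 : (a : ℝ) * y ≤ 1 := by
      have := mul_le_mul_of_nonneg_left hyβ (Nat.cast_nonneg a : (0 : ℝ) ≤ a)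
      linarith
    rw [← sub_eq_add_neg] at h2
    nlinarith
  have h4 : Real.exp (-(2 * y)) ≤ 1 - y := by
    rw [Real.exp_neg, inv_le_iff_one_le_mul₀ (Real.exp_pos _)]
    have := Real.add_one_le_exp (2 * y)
    nlinarith
  have h5 : Real.exp (-(4 * τ * β)) ≤ (1 + y) ^ a * (1 - y) ^ (a + 1) := by
    have e4 : (1 + y) ^ a * (1 - y) ^ (a + 1) = (1 - y ^ 2) ^ a * (1 - y) := by
      rw [pow_succ, ← mul_assoc, ← mul_pow]; congr 2; ring
    rw [e4]
    calc Real.exp (-(4 * τ * β)) ≤ Real.exp (-(2 * y)) * Real.exp (-(2 * y)) := by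
          rw [← Real.exp_add, Real.exp_le_exp]; linarith
      _ ≤ (1 - y) * (1 - y) := by gcongr; linarith
      _ ≤ _ := by gcongr; linarith
  calc Real.exp (-(4 * τ * β * l)) * w ^ (a * l)
      = Real.exp (-(4 * τ * β)) ^ l * w ^ (a * l) := by
        rw [← Real.exp_nat_mul]; congr 2; ring
    _ ≤ ((1 + y) ^ a * (1 - y) ^ (a + 1)) ^ l * w ^ (a * l) := by gcongr
    _ = (w * (1 + y)) ^ (a * l) * (1 - y) ^ ((a + 1) * l) := by
        rw [mul_pow, mul_pow, ← pow_mul, ← pow_mul]; ring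
    _ ≤ _ := by
        have : 0 ≤ 1 - y := by linarith
        gcongr

lemma upper_M {a l : ℕ} {w τ : ℝ} (hw0 : 1 / 2 ≤ w) (hw1 : w ≤ 1)
    (hτ : τ ≤ 1 / 32) (hβ : a * ((1 - w) / 2) ≤ 5 / 16) :
    ((1 + w) / 2) ^ ((2 * a + 1) * l) ≤
      Real.exp (-(8 * τ * ((1 - w) / 2) * l)) * w ^ (a * l) := by
  set β := (1 - w) / 2 with hβd
  have hβ0 : 0 ≤ β := by rw [hβd]; linarith
  have h1 : ((1 + w) / 2) ^ 2 ≤ w * Real.exp (2 * β ^ 2) := by
    have e : ((1 + w) / 2) ^ 2 = w + β ^ 2 := by rw [hβd]; ring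
    have := Real.add_one_le_exp (2 * β ^ 2)
    rw [e]
    nlinarith [sq_nonneg β]
  have h2 : (1 + w) / 2 ≤ Real.exp (-β) := by
    have := Real.add_one_le_exp (-β)
    rw [hβd] at this ⊢; linarith
  have h3 : ((1 + w) / 2) ^ (2 * a + 1) ≤ Real.exp (-(8 * τ * β)) * w ^ a := by
    calc ((1 + w) / 2) ^ (2 * a + 1) = (((1 + w) / 2) ^ 2) ^ a * ((1 + w) / 2) := by
          rw [pow_succ, pow_mul]
      _ ≤ (w * Real.exp (2 * β ^ 2)) ^ a * Real.exp (-β) := by gcongr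
      _ = Real.exp (a * (2 * β ^ 2) + -β) * w ^ a := by
          rw [mul_pow, Real.exp_add, Real.exp_nat_mul]; ring
      _ ≤ _ := by
          gcongr
          nlinarith
  calc ((1 + w) / 2) ^ ((2 * a + 1) * l) = (((1 + w) / 2) ^ (2 * a + 1)) ^ l := by rw [pow_mul]
    _ ≤ (Real.exp (-(8 * τ * β)) * w ^ a) ^ l := by gcongr
    _ = _ := by rw [mul_pow, ← Real.exp_nat_mul, ← pow_mul]; congr 2; ring

lemma final_num {κ b l : ℝ} (hκ0 : 0 < κ) (hb : 1 ≤ b) (hl1 : 1 ≤ l) (hl : 288 * b / κ ^ 2 < l)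
    (F1 : (Real.exp (-(κ * l)) - Real.exp (-(κ * l)) ^ 2) / 8 ≤
      9 * (b * l + 1) * Real.exp (-(κ * l)) ^ 2) : False := by
  set X := Real.exp (-(κ * l)) with hX
  have hX0 : 0 < X := Real.exp_pos _
  have hl0 : 0 < l := by linarith
  have hκl : 0 < κ * l := by positivity
  have F2 : 1 ≤ (73 + 72 * (b * l)) * X := by
    have : X * 1 ≤ X * ((73 + 72 * (b * l)) * X) := by nlinarith
    exact le_of_mul_le_mul_left this hX0
  have F3 : Real.exp (κ * l) ≤ 73 + 72 * (b * l) := by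
    rw [hX, Real.exp_neg, ← div_eq_mul_inv, one_le_div (Real.exp_pos _)] at F2
    exact F2
  have F4 := Real.quadratic_le_exp_of_nonneg hκl.le
  rw [div_lt_iff₀ (by positivity)] at hl
  have F5 : 288 * (b * l) < (κ * l) ^ 2 := by
    have := mul_lt_mul_of_pos_right hl hl0
    nlinarith
  have F6 : (1 : ℝ) ≤ b * l := by nlinarith
  linarith

theorem not_smoothing {c : ℝ} (hc : 0 < c) :
    ¬ ∀ d n : ℕ, 1 ≤ d → ∀ t : ℝ, 0 ≤ t →
      Smoothing (Fin n) d (Real.exp (-t)) (Real.exp (-t * d * c)) := by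
  intro H
  obtain ⟨a, ha⟩ := exists_nat_ge (max 2000 (3 / c))
  have haR : (2000 : ℝ) ≤ a := (le_max_left _ _).trans ha
  have ha2 : 2000 ≤ a := by exact_mod_cast haR
  have hac : 3 ≤ a * c := by
    have := (le_max_right _ _).trans ha
    rwa [div_le_iff₀ hc] at this
  set γ : ℝ := Real.log (((a : ℝ) + 1) / a) / 4 with hγd
  have hq1 : 1 < ((a : ℝ) + 1) / a := by rw [one_lt_div (by linarith)]; linarith
  have hγ0 : 0 < γ := by have := Real.log_pos hq1; positivity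
  have hγ : Real.exp (-(4 * γ)) = (a : ℝ) / (a + 1) := by
    rw [hγd, mul_div_cancel₀ _ (by norm_num), Real.exp_neg, Real.exp_log (by linarith), inv_div]
  have hγa : γ ≤ 1 / (4 * a) := by
    have h1 := Real.log_le_sub_one_of_pos (x := ((a : ℝ) + 1) / a) (by linarith)
    have h2 : ((a : ℝ) + 1) / a - 1 = 1 / a := by field_simp; ring
    rw [hγd, div_le_iff₀ (by norm_num)]
    rw [h2] at h1
    refine h1.trans (le_of_eq ?_)
    field_simp
  have hγa' : γ * a ≤ 1 / 4 := by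
    rw [le_div_iff₀ (by positivity)] at hγa; linarith
  set C := Real.cosh (Real.pi ^ 2 / γ) with hC
  have hC1 : 1 ≤ C := Real.one_le_cosh _
  set τ : ℝ := 1 / (32 * C) with hτd
  have hτ0 : 0 < τ := by positivity
  have hτC : τ * C ≤ 1 := by
    rw [hτd]; field_simp; norm_num
  have hτ : τ ≤ 1 / 32 := by
    rw [hτd]; gcongr; linarith
  set w := Real.exp (-(5 * γ / 2)) with hw
  have hw0 : 0 < w := Real.exp_pos _
  have hw1 : w < 1 := by rw [hw, Real.exp_lt_one_iff]; linarith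
  have hw2 : 1 - 5 * γ / 2 ≤ w := by linarith [Real.add_one_le_exp (-(5 * γ / 2))]
  have hγs : γ ≤ 1 / 8000 := by
    have := mul_le_mul_of_nonneg_left haR hγ0.le
    linarith
  set β := (1 - w) / 2 with hβd
  have hβ0 : 0 < β := by rw [hβd]; linarith
  have hβs : β ≤ 1 / 8 := by rw [hβd]; linarith
  have hβ : a * β ≤ 5 / 16 := by
    have h1 : β ≤ 5 * γ / 4 := by rw [hβd]; linarith
    have := mul_le_mul_of_nonneg_left h1 (show (0 : ℝ) ≤ a by linarith)
    linarith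
  set κ := 4 * τ * β with hκ
  have hκ0 : 0 < κ := by positivity
  obtain ⟨l, hl⟩ := exists_nat_gt (288 * (2 * a + 1) / κ ^ 2)
  have hl0 : (0 : ℝ) < l := lt_of_le_of_lt (by positivity) hl
  have hl1 : 0 < l := by exact_mod_cast hl0
  have hl1' : (1 : ℝ) ≤ l := by exact_mod_cast hl1
  set p := pr ((2 * a + 1) * l) (a * l) with hp
  have hp0 : 0 < p := lt_of_lt_of_le (by positivity)
    (pr_ge _ _ (Nat.mul_le_mul_right _ (by omega)))
  have hp1 : p ≤ 1 / 2 := pr_le_half a l hl1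
  set N := ⌊1 / (2 * p)⌋₊ with hN
  have hN1 : N * p ≤ 1 / 2 := by
    have : (N : ℝ) ≤ 1 / (2 * p) := Nat.floor_le (by positivity)
    rw [le_div_iff₀ (by positivity)] at this
    linarith
  have hN2 : 1 / 4 ≤ N * p := by
    have h1 : 1 / (2 * p) < N + 1 := Nat.lt_floor_add_one _
    have h2 : 1 ≤ N := by
      rw [hN, Nat.one_le_floor_iff, le_div_iff₀ (by positivity)]; linarith
    have h3 : (1 : ℝ) ≤ N := by exact_mod_cast h2
    rw [div_lt_iff₀ (by positivity)] at h1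
    have := mul_le_mul_of_nonneg_right h3 hp0.le
    linarith
  have H1 := (H (a * l) (N * ((2 * a + 1) * l)) (Nat.mul_pos (by omega) hl1) τ hτ0.le).transfer
    finProdFinEquiv
  have hρ1 : Real.exp (-τ) ≤ 1 := by rw [Real.exp_le_one_iff]; linarith
  have hε : Real.exp (-τ * (a * l : ℕ) * c) ≤ Real.exp (-(2 * κ * l)) := by
    rw [Real.exp_le_exp, hκ]
    push_cast
    have h1 : 0 ≤ τ * l := by positivity
    have h2 : 8 * β ≤ a * c := by linarith
    have := mul_le_mul_of_nonneg_left h2 h1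
    linarith
  have hκl : 0 < κ * l := by positivity
  have hε1 : Real.exp (-τ * (a * l : ℕ) * c) ≤ 1 :=
    hε.trans (by rw [Real.exp_le_one_iff]; linarith)
  have K := core ha2 hγ0 hγ hγa hτ0.le hτC (Real.exp_pos _).le hρ1 (Real.exp_pos _).le hε1
    hN1 hN2 H1 w hw
  have G := lower_G (a := a) (l := l) (ρ := Real.exp (-τ)) hw0 hw1.le hρ1
    (by linarith [Real.add_one_le_exp (-τ)]) hτ hβ
  have M := upper_M (a := a) (l := l) (w := w) (by linarith) hw1.le hτ hβ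
  have hWE : w ^ (a * l) * Real.exp ((a * l : ℕ) * (5 * γ / 2)) = 1 := by
    rw [hw, ← Real.exp_nat_mul, ← Real.exp_add]; simp
  have hη : Real.exp (-(((2 * a + 1) * l : ℕ) * τ)) ≤ Real.exp (-(2 * κ * l)) := by
    rw [Real.exp_le_exp, hκ]
    push_cast
    have h1 : 0 ≤ τ * l := by positivity
    have h2 : 8 * β ≤ 2 * a + 1 := by linarith
    have := mul_le_mul_of_nonneg_left h2 h1
    linarith
  rw [← hβd] at G M K
  set E := Real.exp ((a * l : ℕ) * (5 * γ / 2)) with hE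
  have hE0 : 0 < E := Real.exp_pos _
  set X := Real.exp (-(κ * l)) with hX
  have hX0 : 0 < X := Real.exp_pos _
  have hX2 : Real.exp (-(2 * κ * l)) = X ^ 2 := by
    rw [hX, ← Real.exp_nat_mul]; congr 1; push_cast; ring
  have hM2 : Real.exp (-(8 * τ * β * l)) = X ^ 2 := by
    rw [← hX2, hκ]; congr 1; ring
  rw [hX2] at hε hη
  rw [hM2] at M
  have G' := mul_le_mul_of_nonneg_right G hE0.le
  have M' := mul_le_mul_of_nonneg_right M hE0.le
  rw [mul_assoc, hWE, mul_one] at G' M'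
  set mm : ℝ := (((2 * a + 1) * l : ℕ) : ℝ) with hmm
  have hmm0 : 0 ≤ mm := Nat.cast_nonneg _
  have F1 : (X - X ^ 2) / 8 ≤ 9 * (mm + 1) * X ^ 2 := by
    have h1 : 6 * (mm + 1) * Real.exp (-(mm * τ)) ≤ 6 * (mm + 1) * X ^ 2 := by gcongr
    have h2 : 3 * (mm + 1) * Real.exp (-τ * (a * l : ℕ) * c) ≤ 3 * (mm + 1) * X ^ 2 := by gcongr
    rw [sub_mul] at K
    linarith
  have hmR : mm = (2 * a + 1) * l := by simp [hmm]
  rw [hmR] at F1
  exact final_num hκ0 (by linarith) hl1' hl F1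

end Pool.Agent.P.MP_f066c6_an
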