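import Pool.Agent.P.MP_f066c6_an.LapA
import Pool.Agent.P.MP_f066c6_an.Main

/-! The main inequality forced by a lower bound for the Laplacian in `L^p`, `p < 2`. -/

namespace Pool.Agent.P.MP_f066c6_an

open Finset

section two
open Complex

lemma two_const' (c : ℕ → ℝ) (m k₀ : ℕ) {s δ A η : ℝ} (hδ : 0 < δ) (hη : 0 ≤ η)
    (h1 : ∀ r ∈ Set.Icc s (s + δ),
      ∑ k ∈ range (m + 1), |c k| * Real.exp (((k₀ : ℝ) - k) * r) ≤ A)
    (h2 : ∀ r ∈ Set.Icc s (s + δ),
      |∑ k ∈ range (m + 1), c k * (-Real.exp (-r)) ^ k| * Real.exp (k₀ * r) *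
        Real.exp (η * Real.cosh (Real.pi ^ 2 / δ)) ≤ A) :
    |∑ k ∈ range (m + 1), c k * (Real.exp (-(s + δ / 2))) ^ k| * Real.exp (k₀ * (s + δ / 2)) *
      Real.exp η ≤ A := by
  set f : ℂ → ℂ := fun z => (∑ k ∈ range (m + 1), (c k : ℂ) * (Complex.exp (-z)) ^ k) *
    Complex.exp (k₀ * z) *
    Complex.exp (η * Complex.cos (((Real.pi / δ : ℝ) : ℂ) * (z - ((s + δ / 2 : ℝ) : ℂ)))) with hf
  have hd : Differentiable ℂ f := by
    simp only [hf]; fun_prop
  have hnorm : ∀ z : ℂ, ‖f z‖ =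
      ‖∑ k ∈ range (m + 1), (c k : ℂ) * (Complex.exp (-z)) ^ k‖ * Real.exp (k₀ * z.re) *
      Real.exp (η * (Real.cos (Real.pi / δ * (z.re - (s + δ / 2))) *
        Real.cosh (Real.pi / δ * z.im))) := by
    intro z
    simp only [hf, norm_mul, Complex.norm_exp]
    congr 2
    · simp
    · rw [Complex.re_ofReal_mul, re_cos, Complex.re_ofReal_mul, Complex.im_ofReal_mul]
      simp
  have hU : Bornology.IsBounded (Set.Ioo s (s + δ) ×ℂ Set.Ioo (-Real.pi) Real.pi) :=
    (Metric.isBounded_Ioo _ _).reProdIm (Metric.isBounded_Ioo _ _)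
  have h23 : s < s + δ := by linarith
  have hpi : -Real.pi < Real.pi := by linarith [Real.pi_pos]
  have key : ‖f ((s + δ / 2 : ℝ) : ℂ)‖ ≤ A := by
    refine norm_le_of_forall_mem_frontier_norm_le hU hd.diffContOnCl (fun z hz => ?_) ?_
    · rw [frontier_reProdIm, closure_Ioo h23.ne, closure_Ioo hpi.ne, frontier_Ioo h23,
        frontier_Ioo hpi] at hz
      rw [hnorm]
      rcases hz with ⟨hre, him⟩ | ⟨hre, him⟩
      · have hre' : z.re ∈ Set.Icc s (s + δ) := hre
        have him' : z.im = -Real.pi ∨ z.im = Real.pi := by simpa using him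
        have hexp : Complex.exp (-z) = ((-Real.exp (-z.re) : ℝ) : ℂ) := by
          rw [Complex.exp_eq_exp_re_mul_sin_add_cos]
          rcases him' with h | h <;> simp [h]
        have hcosh : Real.cosh (Real.pi / δ * z.im) = Real.cosh (Real.pi ^ 2 / δ) := by
          rcases him' with h | h
          · rw [h, ← Real.cosh_neg]; congr 1; ring
          · rw [h]; congr 1; ring
        have hsum : ‖∑ k ∈ range (m + 1), (c k : ℂ) * (Complex.exp (-z)) ^ k‖ =
            |∑ k ∈ range (m + 1), c k * (-Real.exp (-z.re)) ^ k| := by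
          rw [hexp, ← Real.norm_eq_abs, ← Complex.norm_real]
          push_cast
          rfl
        rw [hsum, hcosh]
        refine le_trans ?_ (h2 z.re hre')
        gcongr
        exact mul_le_of_le_one_left (Real.cosh_pos _).le (Real.cos_le_one _)
      · have hre' : z.re = s ∨ z.re = s + δ := by simpa using hre
        have hcos : Real.cos (Real.pi / δ * (z.re - (s + δ / 2))) = 0 := by
          rcases hre' with h | h
          · rw [h, show Real.pi / δ * (s - (s + δ / 2)) = -(Real.pi / 2) by field_simp; ring,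
              Real.cos_neg, Real.cos_pi_div_two]
          · rw [h, show Real.pi / δ * (s + δ - (s + δ / 2)) = (Real.pi / 2) by field_simp; ring,
              Real.cos_pi_div_two]
        rw [hcos, zero_mul, mul_zero, Real.exp_zero, mul_one]
        refine le_trans ?_ (h1 z.re (by rcases hre' with h | h <;> constructor <;> linarith))
        refine le_trans (mul_le_mul_of_nonneg_right (norm_sum_le _ _) (Real.exp_pos _).le) ?_
        rw [sum_mul]
        refine sum_le_sum fun k _ => le_of_eq ?_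
        rw [norm_mul, norm_pow, Complex.norm_exp, Complex.norm_real, Real.norm_eq_abs,
          ← Real.exp_nat_mul, mul_assoc, ← Real.exp_add]
        congr 2
        simp; ring
    · refine subset_closure ?_
      refine ⟨?_, ?_⟩
      · simp only [Set.mem_preimage, Complex.ofReal_re, Set.mem_Ioo]; constructor <;> linarith
      · simp only [Set.mem_preimage, Complex.ofReal_im, Set.mem_Ioo]
        constructor <;> linarith [Real.pi_pos]
  rw [hnorm] at key
  simp only [Complex.ofReal_re, Complex.ofReal_im, sub_self, mul_zero, Real.cos_zero,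
    Real.cosh_zero, mul_one] at key
  have hsum : ‖∑ k ∈ range (m + 1), (c k : ℂ) * (Complex.exp (-((s + δ / 2 : ℝ) : ℂ))) ^ k‖ =
      |∑ k ∈ range (m + 1), c k * (Real.exp (-(s + δ / 2))) ^ k| := by
    rw [← Real.norm_eq_abs, ← Complex.norm_real]
    push_cast
    rfl
  rwa [hsum] at key

end two

variable {N m : ℕ} {p : ℝ}

lemma cnt_cases (k : ℕ) (x : Fin N × Fin m → Bool) : cnt k x = 0 ∨ 1 ≤ cnt k x := by
  by_cases h : ∀ i, ind k (blk x i) = 0
  · left; simp [cnt, h]
  · right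
    obtain ⟨i, hi⟩ := not_forall.1 h
    have h1 : ind k (blk x i) = 1 := by unfold ind at hi ⊢; split_ifs at hi ⊢ <;> simp_all
    exact h1.ge.trans (single_le_sum (f := fun i => ind k (blk x i))
      (fun _ _ => ind_nonneg _ _) (mem_univ i))

lemma coef_annulus' (hp : 1 ≤ p) (hp2 : p ≤ 2) {k k₀ : ℕ} {U : (Fin N × Fin m → Bool) → ℝ}
    {Y γ r : ℝ} (hY : 0 ≤ Y) (h : Bd p U Y) (hγ : 0 ≤ γ) (hr2 : 2 * γ ≤ r) (hr3 : r * p ≤ 4 * γ)
    (hk : N * pr m k ≤ Real.exp (4 * γ * ((k : ℝ) - k₀))) :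
    |coef k U| * Real.exp (((k₀ : ℝ) - k) * r) ≤ 3 * Y := by
  have h0 : |coef k U| ≤ Y * nrm p fun x : Fin N × Fin m → Bool => cnt k x - N * pr m k := h _
  have key : nrm p (fun x : Fin N × Fin m → Bool => cnt k x - N * pr m k) ≤
      3 * Real.exp (((k : ℝ) - k₀) * r) := by
    rcases le_total k₀ k with hle | hle
    · have hle' : (k₀ : ℝ) ≤ k := by exact_mod_cast hle
      refine (nrm_le_two hp hp2 (Real.exp_pos (((k : ℝ) - k₀) * r)).le
        ((var_cnt k).trans (hk.trans ?_))).trans (by linarith [Real.exp_pos (((k : ℝ) - k₀) * r)])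
      rw [← Real.exp_nat_mul, Real.exp_le_exp]
      push_cast
      nlinarith
    · have hle' : (k : ℝ) ≤ k₀ := by exact_mod_cast hle
      set μ : ℝ := N * pr m k with hμ
      have hμ0 : 0 ≤ μ := mul_nonneg (Nat.cast_nonneg _) (pr_nonneg _ _)
      have hμ1 : μ ≤ 1 := hk.trans (by rw [Real.exp_le_one_iff]; nlinarith)
      refine nrm_le_of hp (by positivity) ?_
      have h1 : av (fun x : Fin N × Fin m → Bool => |cnt k x - μ| ^ p) ≤
          av fun x : Fin N × Fin m → Bool => cnt k x ^ 2 + μ := by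
        refine av_mono fun x => ?_
        rcases cnt_cases k x with h | h
        · rw [h, zero_sub, abs_neg, abs_of_nonneg hμ0]
          have := Real.rpow_le_self_of_le_one hμ0 hμ1 hp
          linarith
        · have h2 : |cnt k x - μ| ^ p ≤ cnt k x ^ p :=
            Real.rpow_le_rpow (abs_nonneg _) (by rw [abs_le]; constructor <;> linarith)
              (by linarith)
          have h3 := Real.rpow_le_rpow_of_exponent_le h hp2
          rw [Real.rpow_two] at h3
          linarith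
      rw [av_add, av_const] at h1
      have h2 := av_cnt_sq (N := N) (m := m) k
      rw [← hμ] at h2
      have h3 : μ ≤ Real.exp (((k : ℝ) - k₀) * r) ^ p := by
        rw [← Real.exp_mul]
        refine hk.trans (Real.exp_le_exp.2 ?_)
        nlinarith
      have h4 : (3 : ℝ) ≤ 3 ^ p := Real.self_le_rpow_of_one_le (by norm_num) hp
      rw [Real.mul_rpow (by norm_num) (by positivity)]
      calc _ ≤ 3 * μ := by nlinarith
        _ ≤ _ := by gcongr
  have e : Real.exp (((k : ℝ) - k₀) * r) * Real.exp (((k₀ : ℝ) - k) * r) = 1 := by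
    rw [← Real.exp_add, ← Real.exp_zero]; congr 1; ring
  calc _ ≤ Y * (3 * Real.exp (((k : ℝ) - k₀) * r)) * Real.exp (((k₀ : ℝ) - k) * r) := by
        gcongr
        exact h0.trans (by gcongr)
    _ = 3 * Y * (Real.exp (((k : ℝ) - k₀) * r) * Real.exp (((k₀ : ℝ) - k) * r)) := by ring
    _ = 3 * Y := by rw [e, mul_one]

lemma poly_mulT (μ : ℕ → ℝ) (h : (Fin N × Fin m → Bool) → ℝ) (w : ℝ) :
    ∑ k ∈ range (m + 1), coef k (mulT μ h) * w ^ k = ∑ S : Finset (Fin N × Fin m),
      (av (fun y => h y * chi S y) * ∑ k ∈ range (m + 1), coef k (chi S) * w ^ k) * μ S.card := by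
  simp only [coef, av_mulT, sum_mul, mul_sum]
  rw [sum_comm]
  exact sum_congr rfl fun S _ => sum_congr rfl fun k _ => by ring

lemma lower_G' {a K : ℕ} {w ρ : ℝ} (hw0 : 0 < w) (hw1 : w ≤ 1) (hρ0 : 0 ≤ ρ) (hρ1 : ρ ≤ 1)
    (hβ : a * ((1 - w) / 2) ≤ 1) :
    w ^ (a * (a * K)) * ρ ^ K ≤ ((1 + w) / 2 - ρ * ((1 - w) / 2)) ^ (a * (a * K)) *
        ((1 + w) / 2 + ρ * ((1 - w) / 2)) ^ ((2 * a + 1) * (a * K) - a * (a * K)) := by
  have e3 : (2 * a + 1) * (a * K) - a * (a * K) = a * (a * K) + a * K := by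
    rw [← Nat.sub_mul, show 2 * a + 1 - a = a + 1 by omega]; ring
  rw [e3, pow_add, ← mul_assoc (_ ^ _), ← mul_pow, pow_mul _ a K]
  have hb : 0 ≤ (1 - w) / 2 := by linarith
  have h1 : w ≤ ((1 + w) / 2 - ρ * ((1 - w) / 2)) * ((1 + w) / 2 + ρ * ((1 - w) / 2)) := by
    have : (ρ * ((1 - w) / 2)) ^ 2 ≤ ((1 - w) / 2) ^ 2 :=
      pow_le_pow_left₀ (by positivity) (mul_le_of_le_one_left hb hρ1) 2
    nlinarith
  have h2 : ρ ≤ ((1 + w) / 2 + ρ * ((1 - w) / 2)) ^ a := by
    have h3 := one_add_mul_le_pow (a := -((1 - ρ) * ((1 - w) / 2))) (by nlinarith) a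
    rw [show 1 + -((1 - ρ) * ((1 - w) / 2)) = (1 + w) / 2 + ρ * ((1 - w) / 2) by ring] at h3
    nlinarith
  exact mul_le_mul (pow_le_pow_left₀ hw0.le h1 _) (pow_le_pow_left₀ hρ0 h2 _) (by positivity)
    (pow_nonneg (hw0.le.trans h1) _)

lemma core' (hp : 1 ≤ p) {a n M : ℕ} (ha : 2000 ≤ a) {γ θ τ : ℝ} (hγ0 : 0 < γ)
    (hγ : Real.exp (-(4 * γ)) = (a : ℝ) / (a + 1)) (hγa : γ ≤ 1 / (4 * a))
    (hθ0 : 0 < θ) (hθ1 : θ ≤ 1) (hθ : (2 + θ) * p ≤ 4)
    (hτ0 : 0 ≤ τ) (hτ : τ * Real.cosh (Real.pi ^ 2 / (θ * γ)) ≤ 1) {K l : ℕ} (hK : n + 1 = 3 * K)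
    (hl : l = a * K)
    (hN1 : N * pr ((2 * a + 1) * l) (a * l) ≤ 1 / 2)
    (hN2 : 1 / 4 ≤ N * pr ((2 * a + 1) * l) (a * l))
    (H : LapBd (Fin N × Fin ((2 * a + 1) * l)) p (a * l) (3 * (n + 1))) :
    ((3 / 4) ^ M - Real.exp (-(γ / 8 * l))) / 8 ≤
      6 * (((2 * a + 1) * l : ℕ) + 1) * Real.exp (-(((2 * a + 1) * l : ℕ) * τ)) +
        3 * (((2 * a + 1) * l : ℕ) + 1) * (1 / 2) ^ M := by
  set m := (2 * a + 1) * l with hm
  set k₀ := a * l with hk₀
  set ε : ℝ := (1 / 2) ^ M with hε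
  have hε0 : 0 ≤ ε := by positivity
  have hε1 : ε ≤ 1 := pow_le_one₀ (by norm_num) (by norm_num)
  have hp2 : p ≤ 2 := by nlinarith
  have ha0 : 0 < a := by omega
  have haR : (2000 : ℝ) ≤ a := by exact_mod_cast ha
  have hkm : k₀ ≤ m := Nat.mul_le_mul_right _ (by omega)
  obtain ⟨q, hq, hu⟩ := exists_approx' hp hε0 (fun f hf => H.res_le hp M hf) (test k₀)
    (abs_test_le k₀)
  set g := mulT (res n M) (test (N := N) (m := m) k₀) with hg
  have hg1 : ∀ x, |g x| ≤ 1 := abs_res_le n M (abs_test_le k₀)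
  have hg4 : Bd p g 1 := bd_one hp hg1
  have hlev : ∀ k : ℕ, N * pr m k ≤ Real.exp (4 * γ * ((k : ℝ) - k₀)) := by
    intro k
    have h1 := choose_mode a l k ha0
    rw [← hγ, ← Real.exp_nat_mul, ← Real.exp_nat_mul] at h1
    have h2 : pr m k ≤ pr m k₀ * Real.exp (4 * γ * ((k : ℝ) - k₀)) := by
      rw [pr_eq, pr_eq, div_mul_eq_mul_div]
      refine div_le_div_of_nonneg_right ?_ (by positivity)
      have h3 := mul_le_mul_of_nonneg_right h1 (Real.exp_pos (4 * γ * k)).le
      rw [mul_assoc _ (Real.exp _), mul_assoc _ (Real.exp _), ← Real.exp_add,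
        ← Real.exp_add] at h3
      have e1 : (k : ℝ) * -(4 * γ) + 4 * γ * k = 0 := by ring
      have e2 : ((a * l : ℕ) : ℝ) * -(4 * γ) + 4 * γ * k = 4 * γ * ((k : ℝ) - k₀) := by
        rw [hk₀]; ring
      rw [e1, e2, Real.exp_zero, mul_one] at h3
      exact h3
    calc N * pr m k ≤ N * (pr m k₀ * Real.exp (4 * γ * ((k : ℝ) - k₀))) := by gcongr
      _ = (N * pr m k₀) * Real.exp (4 * γ * ((k : ℝ) - k₀)) := by ring
      _ ≤ 1 * Real.exp (4 * γ * ((k : ℝ) - k₀)) := by gcongr; linarith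
      _ = _ := one_mul _
  have hcq : ∀ k, coef k q = coef k g - coef k (fun x => g x - q x) := by
    intro k; rw [coef_sub]; ring
  have hq2 : av (fun x => |q x|) ≤ 2 := by
    have h1 := hg4.av_abs hp zero_le_one
    have h2 := hu.av_abs hp hε0
    have h3 : av (fun x => |q x|) ≤ av (fun x => |g x| + |g x - q x|) := by
      refine av_mono fun x => ?_
      have := abs_sub (g x) (g x - q x)
      simpa using this
    rw [av_add] at h3
    linarith
  have hNle : (N : ℝ) ≤ 2 ^ m := by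
    have h1 := pr_ge m k₀ hkm
    have h2 : (N : ℝ) * (1 / 2 ^ m) ≤ 1 := by
      calc (N : ℝ) * (1 / 2 ^ m) ≤ N * pr m k₀ := by gcongr
        _ ≤ 1 := by linarith
    rwa [mul_one_div, div_le_one (by positivity)] at h2
  have hmR : (m : ℝ) = (2 * a + 1) * l := by simp [hm]
  have hkR : (k₀ : ℝ) = a * l := by simp [hk₀]
  have hl0 : (0 : ℝ) ≤ l := Nat.cast_nonneg _
  have hγa' : γ * a ≤ 1 / 4 := by
    rw [le_div_iff₀ (by positivity)] at hγa; linarith
  have hδ : θ * γ ≤ γ := mul_le_of_le_one_left hγ0.le hθ1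
  have hδ0 : 0 < θ * γ := mul_pos hθ0 hγ0
  have hrp : ∀ r, r ≤ 2 * γ + θ * γ → r * p ≤ 4 * γ := fun r hr => by
    have := mul_le_mul_of_nonneg_right hr (show 0 ≤ p by linarith)
    nlinarith
  have T := two_const' (fun k => coef k q) m k₀ (s := 2 * γ) (A := 6 * (m + 1)) (η := m * τ) hδ0
    (by positivity) ?_ ?_
  rotate_left
  · rintro r ⟨hr2, hr3⟩
    have : ∀ k ∈ range (m + 1), |coef k q| * Real.exp (((k₀ : ℝ) - k) * r) ≤ 6 := by
      intro k _
      have h1 := coef_annulus' hp hp2 (k := k) (k₀ := k₀) (by norm_num) hg4 hγ0.le hr2 (hrp r hr3)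
        (hlev k)
      have h2 := coef_annulus' hp hp2 (k := k) (k₀ := k₀) hε0 hu hγ0.le hr2 (hrp r hr3) (hlev k)
      rw [hcq]
      have h3 := abs_sub (coef k g) (coef k (fun x => g x - q x))
      have h4 := Real.exp_pos (((k₀ : ℝ) - k) * r)
      nlinarith
    refine (sum_le_sum this).trans (le_of_eq ?_)
    simp; ring
  · rintro r ⟨hr2, hr3⟩
    have hr0 : 0 ≤ r := by linarith
    have he1 : Real.exp (-r) ≤ 1 := by rw [Real.exp_le_one_iff]; linarith
    have he0 := Real.exp_pos (-r)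
    have he2 : 1 - r ≤ Real.exp (-r) := by linarith [Real.add_one_le_exp (-r)]
    have hrs : r ≤ 1 / 1500 := by
      have := mul_le_mul_of_nonneg_left haR hγ0.le
      linarith
    have hs1 : Real.exp (-8) ≤ 1 := by rw [Real.exp_le_one_iff]; norm_num
    have h1 := poly_lowdeg hq hq2 (w := -Real.exp (-r)) (s := Real.exp (-8))
      (by rw [abs_of_nonneg (by linarith)]; linarith [exp_neg_eight]) hs1
      (by rw [abs_of_nonneg (by linarith)]; linarith)
    have h2 : Real.exp (-8) ^ (m - k₀) ≤ Real.exp (-(4 * m)) := by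
      rw [← Real.exp_nat_mul, Real.exp_le_exp, Nat.cast_sub hkm, hmR, hkR]
      linarith
    have h3 : Real.exp (k₀ * r) ≤ Real.exp m := by
      rw [Real.exp_le_exp, hmR, hkR]
      have h6 : (a : ℝ) * r ≤ 1 := by
        have := mul_le_mul_of_nonneg_left (show r ≤ 3 * γ by linarith)
          (show (0 : ℝ) ≤ a by linarith)
        linarith
      have h7 := mul_le_mul_of_nonneg_left h6 hl0
      have h8 : (0 : ℝ) ≤ a * l := by positivity
      linarith
    have h4 : Real.exp (m * τ * Real.cosh (Real.pi ^ 2 / (θ * γ))) ≤ Real.exp m := by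
      rw [Real.exp_le_exp, mul_assoc]
      exact mul_le_of_le_one_right (Nat.cast_nonneg _) hτ
    have h5 := two_pow_le_exp m
    calc _ ≤ (Real.exp m * (4 * Real.exp m * Real.exp (-(4 * m)))) * Real.exp m * Real.exp m := by
          gcongr
          refine h1.trans ?_
          gcongr
          exact hNle.trans h5
      _ = 4 * (Real.exp m * Real.exp m * Real.exp m * Real.exp m * Real.exp (-(4 * m))) := by ring
      _ = 4 := by
          simp only [← Real.exp_add]
          rw [show (m : ℝ) + m + m + m + -(4 * m) = 0 by ring, Real.exp_zero, mul_one]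
      _ ≤ 6 * (m + 1) := by linarith [(Nat.cast_nonneg m : (0 : ℝ) ≤ m)]
  set r₀ := 2 * γ + θ * γ / 2 with hr₀
  set w := Real.exp (-r₀) with hw
  set E := Real.exp (k₀ * r₀) with hE
  have hE0 : 0 < E := Real.exp_pos _
  have hw0 : 0 < w := Real.exp_pos _
  have hw1 : w ≤ 1 := by rw [hw, Real.exp_le_one_iff]; linarith
  have hw2 : 1 - r₀ ≤ w := by linarith [Real.add_one_le_exp (-r₀)]
  have hγs : γ ≤ 1 / 8000 := by
    have := mul_le_mul_of_nonneg_left haR hγ0.le
    linarith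
  have hw3 : w ≤ 1 - γ := by
    have h1 : w * (r₀ + 1) ≤ 1 := by
      have := mul_le_mul_of_nonneg_left (Real.add_one_le_exp r₀) hw0.le
      rwa [hw, ← Real.exp_add, neg_add_cancel, Real.exp_zero] at this
    nlinarith
  have hβ : a * ((1 - w) / 2) ≤ 5 / 16 := by
    have := mul_le_mul_of_nonneg_left (show (1 - w) / 2 ≤ 5 * γ / 4 by linarith)
      (show (0 : ℝ) ≤ a by linarith)
    linarith
  have hWE : w ^ k₀ * E = 1 := by
    rw [hw, hE, ← Real.exp_nat_mul, ← Real.exp_add]; simp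
  have T1 : |∑ k ∈ range (m + 1), coef k q * w ^ k| * E ≤ 6 * (m + 1) * Real.exp (-(m * τ)) := by
    rw [Real.exp_neg, ← div_eq_mul_inv, le_div_iff₀ (Real.exp_pos _)]
    exact T
  have T2 : |∑ k ∈ range (m + 1), coef k (fun x => g x - q x) * w ^ k| * E ≤ 3 * (m + 1) * ε := by
    refine (mul_le_mul_of_nonneg_right (abs_sum_le_sum_abs _ _) hE0.le).trans ?_
    rw [sum_mul]
    have : ∀ k ∈ range (m + 1), |coef k (fun x => g x - q x) * w ^ k| * E ≤ 3 * ε := by
      intro k _
      have h2 := coef_annulus' hp hp2 (k := k) (k₀ := k₀) (r := r₀) hε0 hu hγ0.le (by linarith)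
        (hrp _ (by linarith)) (hlev k)
      refine le_trans (le_of_eq ?_) h2
      rw [abs_mul, hw, hE, abs_of_nonneg (a := Real.exp _ ^ k) (by positivity), ← Real.exp_nat_mul,
        mul_assoc, ← Real.exp_add]
      congr 2; ring
    refine (sum_le_sum this).trans (le_of_eq ?_)
    simp; ring
  have T4 : ∑ k ∈ range (m + 1), coef k g * w ^ k = ∑ k ∈ range (m + 1), coef k q * w ^ k +
      ∑ k ∈ range (m + 1), coef k (fun x => g x - q x) * w ^ k := by
    rw [← sum_add_distrib]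
    refine sum_congr rfl fun k _ => ?_
    rw [coef_sub]; ring
  have hp0 := pr_nonneg m k₀
  have hN0 : 1 ≤ N := by
    rcases Nat.eq_zero_or_pos N with h | h
    · rw [h] at hN2; norm_num at hN2
    · exact h
  have hN0' : (1 : ℝ) ≤ N := by exact_mod_cast hN0
  have hB : (1 : ℝ) / 2 ≤ (1 - pr m k₀) ^ (N - 1) := by
    have h1 := one_add_mul_le_pow (a := -pr m k₀) (by nlinarith) (N - 1)
    rw [Nat.cast_sub hN0] at h1
    rw [sub_eq_add_neg]
    push_cast at h1
    nlinarith
  set B := N * pr m k₀ * (1 - pr m k₀) ^ (N - 1) with hBd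
  have hC : (1 : ℝ) / 8 ≤ B := by
    calc (1 : ℝ) / 8 = 1 / 4 * (1 / 2) := by norm_num
      _ ≤ _ := by rw [hBd]; gcongr
  have T3 := res_ge (fun S : Finset (Fin N × Fin m) => S.card) n M K
    (fun S => -(av (fun y => test k₀ y * chi S y) * ∑ k ∈ range (m + 1), coef k (chi S) * w ^ k))
    (B * w ^ k₀) (B * ((1 + w) / 2) ^ m) fun ρ h0 h1 => by
      have h2 := poly_heat_test (N := N) (m := m) k₀ ρ w
      rw [show heat ρ (test (N := N) (m := m) k₀) = mulT (fun j => ρ ^ j) (test k₀) from rfl,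
        poly_mulT, ← hBd] at h2
      have h3 := lower_G' (a := a) (K := K) hw0 hw1 h0 h1 (by linarith)
      rw [← hl, ← hk₀, ← hm] at h3
      have h4 := mul_le_mul_of_nonneg_left h3 (show 0 ≤ B by linarith)
      simp only [neg_mul, sum_neg_distrib]
      rw [h2]
      linarith
  simp only [neg_mul, sum_neg_distrib] at T3
  rw [← poly_mulT, ← hg] at T3
  have e : res n M K = (3 / 4) ^ M := by
    have h1 : (n : ℝ) + 1 = 3 * K := by exact_mod_cast hK
    have h2 : (K : ℝ) ≠ 0 := by intro h; rw [h] at h1; linarith [(Nat.cast_nonneg n : (0 : ℝ) ≤ n)]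
    rw [res, h1]; congr 1; field_simp; ring
  have U := upper_M (a := a) (l := l) (w := w) (τ := 1 / 32) (by linarith) hw1 le_rfl hβ
  have U2 : Real.exp (-(8 * (1 / 32) * ((1 - w) / 2) * l)) ≤ Real.exp (-(γ / 8 * l)) := by
    rw [Real.exp_le_exp]
    have := mul_le_mul_of_nonneg_right (show γ / 8 ≤ 8 * (1 / 32) * ((1 - w) / 2) by linarith) hl0
    linarith
  have U3 : ((1 + w) / 2) ^ m * E ≤ Real.exp (-(γ / 8 * l)) := by
    calc _ ≤ Real.exp (-(γ / 8 * l)) * w ^ k₀ * E := by gcongr; exact U.trans (by gcongr)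
      _ = _ := by rw [mul_assoc, hWE, mul_one]
  have T6 := abs_add_le (∑ k ∈ range (m + 1), coef k q * w ^ k)
    (∑ k ∈ range (m + 1), coef k (fun x => g x - q x) * w ^ k)
  rw [← T4] at T6
  rw [e] at T3
  have T7 := mul_le_mul_of_nonneg_right (neg_le_abs (∑ k ∈ range (m + 1), coef k g * w ^ k)) hE0.le
  have T8 := mul_le_mul_of_nonneg_right T6 hE0.le
  have T9 := mul_le_mul_of_nonneg_right T3 hE0.le
  have T10 : B * ((3 / 4) ^ M - Real.exp (-(γ / 8 * l))) ≤
      6 * (m + 1) * Real.exp (-(m * τ)) + 3 * (m + 1) * ε := by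
    have e2 : B * w ^ k₀ * (3 / 4) ^ M * E = B * (3 / 4) ^ M := by
      rw [show B * w ^ k₀ * (3 / 4) ^ M * E = B * (3 / 4) ^ M * (w ^ k₀ * E) by ring, hWE, mul_one]
    have := mul_le_mul_of_nonneg_left U3 (show 0 ≤ B by linarith)
    rw [e2, add_mul, mul_assoc B] at T9
    rw [add_mul] at T8
    rw [mul_sub]
    linarith only [T1, T2, T7, T8, T9, this]
  rcases le_total ((3 / 4 : ℝ) ^ M - Real.exp (-(γ / 8 * l))) 0 with h | h
  · exact le_trans (by linarith only [h]) (by positivity : (0 : ℝ) ≤ _)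
  · linarith only [T10, mul_le_mul_of_nonneg_right hC h]

end Pool.Agent.P.MP_f066c6_an
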