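import Pool.Agent.P.MP_f066c6_an.LapB

/-! Choice of the parameters. -/

namespace Pool.Agent.P.MP_f066c6_an

open Finset

lemma not_lapBd {p θ : ℝ} (hp : 1 ≤ p) (hθ0 : 0 < θ) (hθ1 : θ ≤ 1) (hθ : (2 + θ) * p ≤ 4)
    {a K M : ℕ} (ha : 2000 ≤ a) (hK0 : 0 < K) (hK : 64 * M * Real.exp (80 * a / θ) ≤ K)
    (hM : 1 + 72 * ((2 * a + 1) * (a * K) + 1) < Real.exp (M / 3)) :
    ∃ n : ℕ, ¬ LapBd (Fin n) p (a * (a * K)) (9 * K) := by
  by_contra H
  push Not at H
  have haR : (2000 : ℝ) ≤ a := by exact_mod_cast ha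
  set γ : ℝ := Real.log (((a : ℝ) + 1) / a) / 4 with hγd
  have hq1 : 1 < ((a : ℝ) + 1) / a := by rw [one_lt_div (by linarith)]; linarith
  have hγ0 : 0 < γ := by have := Real.log_pos hq1; positivity
  have hγ : Real.exp (-(4 * γ)) = (a : ℝ) / (a + 1) := by
    rw [hγd, mul_div_cancel₀ _ (by norm_num), Real.exp_neg, Real.exp_log (by linarith), inv_div]
  have hγa : γ ≤ 1 / (4 * a) := by
    have h1 := Real.log_le_sub_one_of_pos (x := ((a : ℝ) + 1) / a) (by linarith)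
    have h2 : ((a : ℝ) + 1) / a - 1 = 1 / a := by field_simp; ring
    rw [hγd, div_le_iff₀ (by norm_num)]
    rw [h2] at h1
    refine h1.trans (le_of_eq ?_)
    field_simp
  have hγb : 1 / 8 ≤ γ * a := by
    have h1 := Real.add_one_le_exp (-(4 * γ))
    rw [hγ, le_div_iff₀ (by positivity)] at h1
    nlinarith
  set τ : ℝ := Real.exp (-(80 * a / θ)) with hτd
  have hτ0 : 0 < τ := Real.exp_pos _
  have hτ1 : τ ≤ 1 := by rw [hτd, Real.exp_le_one_iff, neg_nonpos]; positivity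
  have hτE : τ * Real.exp (80 * a / θ) = 1 := by rw [hτd, ← Real.exp_add]; simp
  have hτC : τ * Real.cosh (Real.pi ^ 2 / (θ * γ)) ≤ 1 := by
    have h1 : Real.pi ^ 2 / (θ * γ) ≤ 80 * a / θ := by
      rw [div_le_div_iff₀ (by positivity) hθ0]
      have h2 : Real.pi ^ 2 ≤ 10 := by nlinarith [Real.pi_lt_d2, Real.pi_pos]
      nlinarith
    have h2 : 0 ≤ Real.pi ^ 2 / (θ * γ) := by positivity
    have h3 : Real.cosh (Real.pi ^ 2 / (θ * γ)) ≤ Real.exp (80 * a / θ) := by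
      rw [Real.cosh_eq]
      have h4 := Real.exp_le_exp.2 h1
      have h5 := Real.exp_le_exp.2 (show -(Real.pi ^ 2 / (θ * γ)) ≤ 80 * a / θ by linarith)
      linarith
    exact (mul_le_mul_of_nonneg_left h3 hτ0.le).trans hτE.le
  set l := a * K with hl
  have hl1 : 0 < l := Nat.mul_pos (by omega) hK0
  set P := pr ((2 * a + 1) * l) (a * l) with hP
  have hp0 : 0 < P := lt_of_lt_of_le (by positivity)
    (pr_ge _ _ (Nat.mul_le_mul_right _ (by omega)))
  have hp1 : P ≤ 1 / 2 := pr_le_half a l hl1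
  set N := ⌊1 / (2 * P)⌋₊ with hN
  have hN1 : N * P ≤ 1 / 2 := by
    have : (N : ℝ) ≤ 1 / (2 * P) := Nat.floor_le (by positivity)
    rw [le_div_iff₀ (by positivity)] at this
    linarith
  have hN2 : 1 / 4 ≤ N * P := by
    have h1 : 1 / (2 * P) < N + 1 := Nat.lt_floor_add_one _
    have h2 : 1 ≤ N := by
      rw [hN, Nat.one_le_floor_iff, le_div_iff₀ (by positivity)]; linarith
    have h3 : (1 : ℝ) ≤ N := by exact_mod_cast h2
    rw [div_lt_iff₀ (by positivity)] at h1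
    have := mul_le_mul_of_nonneg_right h3 hp0.le
    linarith
  have hn : 3 * K - 1 + 1 = 3 * K := by omega
  have hnR : ((3 * K - 1 : ℕ) : ℝ) + 1 = 3 * K := by exact_mod_cast hn
  have H1 := (H (N * ((2 * a + 1) * l))).transfer finProdFinEquiv
  rw [show (9 : ℝ) * K = 3 * (((3 * K - 1 : ℕ) : ℝ) + 1) by rw [hnR]; ring] at H1
  have C := core' hp (M := M) ha hγ0 hγ hγa hθ0 hθ1 hθ hτ0.le hτC hn hl hN1 hN2 H1
  have hK' : 64 * M ≤ K * τ := by
    have := mul_le_mul_of_nonneg_right hK hτ0.le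
    rwa [mul_assoc, mul_comm _ τ, hτE, mul_one] at this
  have hKR : (0 : ℝ) < K := by exact_mod_cast hK0
  have hM0 : (0 : ℝ) ≤ M := Nat.cast_nonneg _
  set X : ℝ := (1 / 2) ^ M with hX
  have hX0 : 0 < X := by positivity
  have hXe : Real.exp (-M) ≤ X := by
    rw [hX, Real.exp_neg, one_div, inv_pow]
    exact inv_anti₀ (by positivity) (two_pow_le_exp M)
  have hlR : (l : ℝ) = a * K := by simp [hl]
  set mm : ℝ := (((2 * a + 1) * l : ℕ) : ℝ) with hmm
  have hmR : mm = (2 * a + 1) * (a * K) := by simp [hmm, hl]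
  have h1 : Real.exp (-(γ / 8 * l)) ≤ X := by
    refine le_trans (Real.exp_le_exp.2 ?_) hXe
    have := mul_le_mul_of_nonneg_right hγb hKR.le
    have := mul_le_of_le_one_right hKR.le hτ1
    rw [hlR]
    nlinarith
  have h2 : Real.exp (-(mm * τ)) ≤ X := by
    refine le_trans (Real.exp_le_exp.2 ?_) hXe
    have h3 : (K : ℝ) ≤ mm := by
      rw [hmR, ← mul_assoc]
      exact le_mul_of_one_le_left hKR.le (by nlinarith)
    have := mul_le_mul_of_nonneg_right h3 hτ0.le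
    linarith
  have h3 : Real.exp (M / 3) * X ≤ (3 / 4) ^ M := by
    have h4 : Real.exp (1 / 3) ≤ 3 / 2 := by
      have := Real.add_one_le_exp (-(1 / 3))
      rw [Real.exp_neg, le_inv_comm₀ (by norm_num) (Real.exp_pos _)] at this
      exact this.trans (by norm_num)
    rw [hX, show (M : ℝ) / 3 = M * (1 / 3) by ring, Real.exp_nat_mul, ← mul_pow]
    exact pow_le_pow_left₀ (by positivity) (by linarith) _
  have hmm0 : 0 ≤ mm + 1 := by positivity
  rw [← hmR] at hM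
  have h4 := mul_lt_mul_of_pos_right hM hX0
  have h5 := mul_le_mul_of_nonneg_left h2 hmm0
  nlinarith

theorem exists_slow {p : ℝ} (hp : 1 ≤ p) (hp2 : p < 2) : ∃ C : ℝ, ∃ d₀ : ℕ, ∀ d : ℕ, d₀ ≤ d →
    ∃ n : ℕ, ¬ LapBd (Fin n) p d (C * d / Real.log d ^ 2) := by
  obtain ⟨θ, hθ0, hθ1, hθ⟩ : ∃ θ : ℝ, 0 < θ ∧ θ ≤ 1 ∧ (2 + θ) * p ≤ 4 :=
    ⟨2 - p, by linarith, by linarith, by nlinarith⟩
  obtain ⟨d₀, hd₀⟩ := exists_nat_ge (Real.exp (400200 / θ))
  refine ⟨2880000 / θ ^ 2, d₀, fun d hd => ?_⟩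
  have hdR : Real.exp (400200 / θ) ≤ d := hd₀.trans (by exact_mod_cast hd)
  have hd0 : (0 : ℝ) < d := (Real.exp_pos _).trans_le hdR
  set t := Real.log d with ht
  have hdt : (d : ℝ) = Real.exp t := (Real.exp_log hd0).symm
  have ht1 : 400200 ≤ θ * t := by
    rw [hdt, Real.exp_le_exp, div_le_iff₀ hθ0] at hdR; linarith
  have ht0 : 0 < t := by by_contra h; nlinarith
  have ht2 : θ * t ≤ t := mul_le_of_le_one_left ht0.le hθ1
  set a := ⌊θ * t / 200⌋₊ with ha
  have ha1 : (a : ℝ) ≤ θ * t / 200 := Nat.floor_le (by positivity)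
  have ha2 : θ * t / 200 < a + 1 := Nat.lt_floor_add_one _
  have haR : (2000 : ℝ) ≤ a := by
    have : 2000 ≤ a := Nat.le_floor (by push_cast; linarith)
    exact_mod_cast this
  have ha3 : θ * t / 400 ≤ a := by linarith
  have hq := Real.quadratic_le_exp_of_nonneg ht0.le
  rw [← hdt] at hq
  have ha4 : (a : ℝ) ^ 2 ≤ d := by nlinarith
  set K := ⌈(d : ℝ) / a ^ 2⌉₊ with hK
  have hK1 : (d : ℝ) ≤ K * a ^ 2 := by
    have : (d : ℝ) / a ^ 2 ≤ K := Nat.le_ceil _
    rwa [div_le_iff₀ (by positivity)] at this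
  have hK2 : (K : ℝ) * a ^ 2 ≤ 2 * d := by
    have : (K : ℝ) < d / a ^ 2 + 1 := Nat.ceil_lt_add_one (by positivity)
    rw [div_add_one (by positivity), lt_div_iff₀ (by positivity)] at this
    linarith
  have hK0 : 0 < K := Nat.ceil_pos.2 (by positivity)
  have hKR : (0 : ℝ) < K := by exact_mod_cast hK0
  set M := ⌈6 * t⌉₊ with hM
  have hM1 : 6 * t ≤ M := Nat.le_ceil _
  have hM2 : (M : ℝ) ≤ 7 * t := by
    have : (M : ℝ) < 6 * t + 1 := Nat.ceil_lt_add_one (by positivity)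
    linarith
  obtain ⟨n, hn⟩ := not_lapBd hp hθ0 hθ1 hθ (a := a) (K := K) (M := M) (by exact_mod_cast haR) hK0
    (by
      have h1 : Real.exp (80 * a / θ) ≤ Real.exp (2 / 5 * t) := by
        rw [Real.exp_le_exp, div_le_iff₀ hθ0]; nlinarith
      have h2 := Real.pow_div_factorial_le_exp (3 / 5 * t) (by positivity) 4
      have h3 : Real.exp (3 / 5 * t) * Real.exp (2 / 5 * t) = d := by
        rw [← Real.exp_add, hdt]; congr 1; ring
      have h4 : 448 * t ^ 3 ≤ Real.exp (3 / 5 * t) := by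
        refine le_trans ?_ h2
        have : 0 ≤ t ^ 3 * (t - 400200) := mul_nonneg (by positivity) (by linarith)
        norm_num [Nat.factorial]
        nlinarith
      have h5 : (a : ℝ) ^ 2 ≤ t ^ 2 := pow_le_pow_left₀ (by positivity) (by linarith) 2
      have h6 : 64 * M * Real.exp (80 * a / θ) * t ^ 2 ≤ K * t ^ 2 := by
        calc _ ≤ 64 * (7 * t) * Real.exp (2 / 5 * t) * t ^ 2 := by gcongr
          _ = 448 * t ^ 3 * Real.exp (2 / 5 * t) := by ring
          _ ≤ Real.exp (3 / 5 * t) * Real.exp (2 / 5 * t) := by gcongr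
          _ ≤ K * a ^ 2 := h3.trans_le hK1
          _ ≤ _ := by gcongr
      exact le_of_mul_le_mul_right h6 (by positivity))
    (by
      have h1 : (d : ℝ) * d ≤ Real.exp (M / 3) := by
        rw [hdt, ← Real.exp_add, Real.exp_le_exp]; linarith
      have h2 : (a : ℝ) * K ≤ K * a ^ 2 := by nlinarith
      have h3 : (400200 : ℝ) ≤ d := by nlinarith
      nlinarith)
  refine ⟨n, fun H => hn fun f hf => le_trans ?_ (H f fun S hS => hf S (hS.trans_le ?_))⟩
  · refine mul_le_mul_of_nonneg_right ?_ (nrm_nonneg f)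
    rw [le_div_iff₀ (by positivity), div_mul_eq_mul_div, le_div_iff₀ (by positivity)]
    have h1 : (θ * t) ^ 2 ≤ (400 * a) ^ 2 := pow_le_pow_left₀ (by positivity) (by linarith) 2
    have h2 := mul_le_mul_of_nonneg_left h1 hKR.le
    nlinarith
  · have : (d : ℝ) ≤ (a * (a * K) : ℕ) := by push_cast; linarith
    exact_mod_cast this

end Pool.Agent.P.MP_f066c6_an
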