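import Pool.Agent.P.MP_f066c6_an.LapA

/-! The heat flow moves a function by at most `t` times the norm of its Laplacian. -/

namespace Pool.Agent.P.MP_f066c6_an

open Finset

lemma av_comm {α β : Type*} [Fintype α] [Fintype β] (F : α → β → ℝ) :
    av (fun x => av (F x)) = av fun y => av fun x => F x y := by
  simp only [av, ← sum_div]
  rw [sum_comm, div_right_comm]

lemma av_integral {α : Type*} [Fintype α] (F : α → ℝ → ℝ) (hF : ∀ y, Continuous (F y)) (t : ℝ) :
    av (fun y => ∫ s in (0 : ℝ)..t, F y s) = ∫ s in (0 : ℝ)..t, av fun y => F y s := by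
  simp only [av]
  rw [intervalIntegral.integral_div,
    intervalIntegral.integral_finsetSum fun y _ => (hF y).intervalIntegrable _ _]

lemma nrm_kernel {α : Type*} [Fintype α] [Nonempty α] {p t : ℝ} (hp : 1 ≤ p) (ht : 0 < t)
    (k : α → α → ℝ) (hk : ∀ x y, 0 ≤ k x y) (h1 : ∀ x, av (k x) = t)
    (h2 : ∀ y, av (fun x => k x y) = t) (g : α → ℝ) :
    nrm p (fun x => av fun y => g y * k x y) ≤ t * nrm p g := by
  have hc : (0 : ℝ) < Fintype.card α := by exact_mod_cast Fintype.card_pos
  have hp0 : p ≠ 0 := by linarith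
  refine nrm_le_of hp (mul_nonneg ht.le (nrm_nonneg g)) ?_
  have key : ∀ x, |av fun y => g y * k x y| ^ p ≤ t ^ p / t * av fun y => |g y| ^ p * k x y := by
    intro x
    have h := Real.rpow_arith_mean_le_arith_mean_rpow univ
      (fun y => k x y / (t * Fintype.card α)) (fun y => |g y|)
      (fun y _ => by have := hk x y; positivity)
      (by
        have := h1 x
        rw [av, div_eq_iff hc.ne'] at this
        rw [← sum_div, this]
        exact div_self (by positivity)) (fun y _ => abs_nonneg _) hp
    have e1 : |av fun y => g y * k x y| ≤ t * ∑ y, k x y / (t * Fintype.card α) * |g y| := by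
      refine (abs_av_le _).trans_eq ?_
      rw [av, sum_div, mul_sum]
      refine sum_congr rfl fun y _ => ?_
      rw [abs_mul, abs_of_nonneg (hk x y)]
      field_simp
    refine (Real.rpow_le_rpow (abs_nonneg _) e1 (by linarith)).trans ?_
    rw [Real.mul_rpow ht.le (sum_nonneg fun y _ => by have := hk x y; positivity)]
    refine (mul_le_mul_of_nonneg_left h (by positivity)).trans_eq ?_
    rw [av, sum_div, mul_sum, mul_sum]
    refine sum_congr rfl fun y _ => ?_
    field_simp
  refine (av_mono key).trans_eq ?_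
  rw [av_const_mul, av_comm]
  simp only [av_const_mul, h2]
  rw [av_mul_const, Real.mul_rpow ht.le (nrm_nonneg g), nrm, one_div,
    Real.rpow_inv_rpow (av_nonneg fun _ => by positivity) hp0]
  field_simp

variable {ι : Type*} [Fintype ι] [DecidableEq ι] {p : ℝ}

lemma nrm_sub_heat (hp : 1 ≤ p) {t : ℝ} (ht : 0 < t) (f : (ι → Bool) → ℝ) :
    nrm p (fun x => f x - heat (Real.exp (-t)) f x) ≤ t * nrm p (mulT (fun j => j) f) := by
  have hK : ∀ (x : ι → Bool) (ρ : ℝ),
      av (fun y : ι → Bool => ∏ i, (1 + ρ * (sg (x i) * sg (y i)))) = 1 := fun x ρ => by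
    rw [av_prod (fun i b => 1 + ρ * (sg (x i) * sg b))]
    refine prod_eq_one fun i _ => ?_
    rw [av_bool]; simp [sg]; ring
  have h1 : ∀ x : ι → Bool, av (fun y : ι → Bool =>
      ∫ s in (0 : ℝ)..t, ∏ i, (1 + Real.exp (-s) * (sg (x i) * sg (y i)))) = t := fun x => by
    rw [av_integral _ fun y => by fun_prop]
    simp [hK]
  have h := nrm_kernel hp ht (fun x y : ι → Bool =>
    ∫ s in (0 : ℝ)..t, ∏ i, (1 + Real.exp (-s) * (sg (x i) * sg (y i))))
    (fun x y => intervalIntegral.integral_nonneg ht.le fun s hs => prod_nonneg fun i _ => by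
      have h2 : Real.exp (-s) ≤ 1 := by rw [Real.exp_le_one_iff]; linarith [hs.1]
      have h3 := Real.exp_pos (-s)
      cases x i <;> cases y i <;> simp [sg] <;> linarith [hs.1])
    h1 (fun y => by simp only [mul_comm (sg _) (sg (y _))]; exact h1 y) (mulT (fun j => j) f)
  refine le_of_eq_of_le ?_ h
  congr 1
  funext x
  simp only [← intervalIntegral.integral_const_mul]
  rw [av_integral _ fun y => by fun_prop]
  simp only [← heat_eq_kernel]
  have hd : ∀ s : ℝ, HasDerivAt (fun s => -heat (Real.exp (-s)) f x)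
      (heat (Real.exp (-s)) (mulT (fun j => j) f) x) s := fun s => by
    simp only [heat, av_mulT_chi, ← sum_neg_distrib, ← Real.exp_nat_mul]
    refine HasDerivAt.fun_sum fun S _ => ?_
    have h2 : HasDerivAt (fun s : ℝ => (S.card : ℝ) * -s) (S.card * -1) s :=
      (hasDerivAt_neg s).const_mul _
    exact (((h2.exp.mul_const (av fun y => f y * chi S y)).mul_const (chi S x)).fun_neg).congr_deriv
      (by ring)
  rw [intervalIntegral.integral_eq_sub_of_hasDerivAt (fun s _ => hd s)
    (Continuous.intervalIntegrable (by unfold heat; fun_prop) _ _)]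
  have e : heat (Real.exp (-0)) f x = f x := by
    rw [neg_zero, Real.exp_zero]
    exact le_antisymm (by simpa [heat, mulT] using (congrFun (mulT_one f) x).le)
      (by simpa [heat, mulT] using (congrFun (mulT_one f) x).ge)
  rw [e]; ring

lemma heat_lower (hp : 1 ≤ p) {t L : ℝ} (ht : 0 ≤ t) {f : (ι → Bool) → ℝ}
    (h : nrm p (mulT (fun j => j) f) ≤ L * nrm p f) :
    (1 - t * L) * nrm p f ≤ nrm p (heat (Real.exp (-t)) f) := by
  rcases ht.eq_or_lt with rfl | ht
  · have e : heat (Real.exp (-0)) f = f := by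
      rw [neg_zero, Real.exp_zero, ← mulT_one f]
      funext x
      simp [heat, mulT_one]
      simpa [mulT] using congrFun (mulT_one f) x
    rw [e]; simp
  · have h1 := nrm_add hp (fun x => f x - heat (Real.exp (-t)) f x) (heat (Real.exp (-t)) f)
    simp only [sub_add_cancel] at h1
    have h2 := nrm_sub_heat hp ht f
    have h3 := mul_le_mul_of_nonneg_left h ht.le
    have h4 : nrm p (fun x => f x) = nrm p f := rfl
    linarith

end Pool.Agent.P.MP_f066c6_an
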