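import Pool.Agent.P.MP_f066c6_an.Blocks

/-! The generating polynomial of the level coefficients. -/

namespace Pool.Agent.P.MP_f066c6_an

open Finset

variable {N m : ℕ}

lemma prod_wt (a b : ℝ) (y : Fin m → Bool) :
    ∏ j, (a + b * sg (y j)) = (a - b) ^ wt y * (a + b) ^ (m - wt y) := by
  have e : ∀ j, a + b * sg (y j) = if y j = true then a - b else a + b := by
    intro j; cases y j <;> simp [sg]; ring
  simp only [e]
  rw [prod_ite, prod_const, prod_const]
  congr 2
  have := card_filter_add_card_filter_not (s := (univ : Finset (Fin m))) (fun j => y j = true)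
  simp only [card_univ, Fintype.card_fin] at this
  unfold wt
  omega

lemma pow_wt (w : ℝ) (y : Fin m → Bool) :
    w ^ wt y = ∏ j, ((1 + w) / 2 + (1 - w) / 2 * sg (y j)) := by
  rw [prod_wt]
  have h1 : (1 + w) / 2 - (1 - w) / 2 = w := by ring
  have h2 : (1 + w) / 2 + (1 - w) / 2 = 1 := by ring
  rw [h1, h2]; simp

lemma sum_ind (w : ℝ) (y : Fin m → Bool) :
    ∑ k ∈ range (m + 1), ind k y * w ^ k = w ^ wt y := by
  have : ∀ k, ind k y * w ^ k = if wt y = k then w ^ k else 0 := by
    intro k; unfold ind; split_ifs <;> simp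
  simp only [this]
  rw [sum_ite_eq]
  simp [wt_le]

lemma sum_pr (w : ℝ) : ∑ k ∈ range (m + 1), pr m k * w ^ k = ((1 + w) / 2) ^ m := by
  have h := av_prod_hom (ι := Fin m) ((1 + w) / 2) ((1 - w) / 2)
  simp only [← pow_wt, Fintype.card_fin, ← sum_ind] at h
  rw [av_sum] at h
  rw [← h]
  refine sum_congr rfl fun k _ => ?_
  rw [av_mul_const]; rfl

lemma poly_eq (w : ℝ) (U : (Fin N × Fin m → Bool) → ℝ) :
    ∑ k ∈ range (m + 1), coef k U * w ^ k =
      ∑ i : Fin N, av (fun x => (w ^ wt (blk x i) - ((1 + w) / 2) ^ m) * U x) := by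
  rw [← av_sum]
  simp only [coef, ← av_mul_const]
  rw [← av_sum]
  congr 1
  funext x
  rw [← sum_mul, sum_sub_distrib, ← sum_pr]
  simp only [← sum_ind]
  rw [sum_comm, sum_const, card_univ, Fintype.card_fin, nsmul_eq_mul, mul_sum, ← sum_sub_distrib,
    sum_mul]
  refine sum_congr rfl fun k _ => ?_
  rw [← sum_mul, cnt]
  ring

lemma chi_blk (T : Finset (Fin m)) (x : Fin N × Fin m → Bool) (i : Fin N) :
    chi T (blk x i) = chi (T.map (Function.Embedding.sectR i (Fin m))) x := by
  simp [chi, prod_map, blk]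

lemma av_prod_blk_mul (α β : ℝ) (U : (Fin N × Fin m → Bool) → ℝ) (i : Fin N) :
    av (fun x => (∏ j, (α + β * sg (blk x i j))) * U x) =
      ∑ T : Finset (Fin m), β ^ T.card * α ^ (m - T.card) *
        av (fun x => U x * chi (T.map (Function.Embedding.sectR i (Fin m))) x) := by
  simp only [← av_const_mul]
  rw [← av_sum]
  congr 1
  funext x
  rw [prod_expand, sum_mul, Fintype.card_fin]
  refine sum_congr rfl fun T _ => ?_
  rw [chi_blk]; ring

/-- Low degree functions are almost orthogonal to the family at negative parameters. -/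
lemma poly_lowdeg {d : ℕ} {q : (Fin N × Fin m → Bool) → ℝ} (hq : LowDeg d q)
    (hq2 : av (fun x => |q x|) ≤ 2) {w s : ℝ} (h1 : |(1 + w) / 2| ≤ s) (hs : s ≤ 1)
    (h2 : |(1 - w) / 2| ≤ 1) :
    |∑ k ∈ range (m + 1), coef k q * w ^ k| ≤ N * (4 * 2 ^ m * s ^ (m - d)) := by
  have hs0 : 0 ≤ s := (abs_nonneg _).trans h1
  rw [poly_eq]
  refine (abs_sum_le_sum_abs _ _).trans ?_
  have key : ∀ i : Fin N, |av (fun x => (w ^ wt (blk x i) - ((1 + w) / 2) ^ m) * q x)| ≤
      4 * 2 ^ m * s ^ (m - d) := by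
    intro i
    simp only [sub_mul]
    rw [av_sub, av_const_mul]
    simp only [pow_wt]
    rw [av_prod_blk_mul]
    have hc : ∀ S, |av (fun x => q x * chi S x)| ≤ 2 := by
      intro S
      refine (abs_av_le _).trans (le_trans (le_of_eq ?_) hq2)
      simp [abs_mul, abs_chi]
    have hA : |∑ T : Finset (Fin m), ((1 - w) / 2) ^ T.card * ((1 + w) / 2) ^ (m - T.card) *
        av (fun x => q x * chi (T.map (Function.Embedding.sectR i (Fin m))) x)| ≤
        2 ^ m * (2 * s ^ (m - d)) := by
      refine (abs_sum_le_sum_abs _ _).trans ?_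
      have hT : ∀ T : Finset (Fin m),
          |((1 - w) / 2) ^ T.card * ((1 + w) / 2) ^ (m - T.card) *
            av (fun x => q x * chi (T.map (Function.Embedding.sectR i (Fin m))) x)| ≤
            2 * s ^ (m - d) := by
        intro T
        by_cases hT : d ≤ T.card
        · rw [hq _ (by simpa using hT)]
          simp only [mul_zero, abs_zero]; positivity
        · rw [abs_mul, abs_mul, abs_pow, abs_pow]
          have a1 : |(1 - w) / 2| ^ T.card ≤ 1 := pow_le_one₀ (abs_nonneg _) h2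
          have a2 : |(1 + w) / 2| ^ (m - T.card) ≤ s ^ (m - d) :=
            (pow_le_pow_left₀ (abs_nonneg _) h1 _).trans
              (pow_le_pow_of_le_one hs0 hs (by omega))
          calc _ ≤ 1 * s ^ (m - d) * 2 := by gcongr; exact hc _
            _ = _ := by ring
      refine (sum_le_sum fun T _ => hT T).trans (le_of_eq ?_)
      simp
    have hB : |((1 + w) / 2) ^ m * av q| ≤ s ^ (m - d) * 2 := by
      rw [abs_mul, abs_pow]
      have a2 : |(1 + w) / 2| ^ m ≤ s ^ (m - d) :=
        (pow_le_pow_left₀ (abs_nonneg _) h1 _).trans (pow_le_pow_of_le_one hs0 hs (by omega))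
      have a3 : |av q| ≤ 2 := (abs_av_le _).trans hq2
      gcongr
    have h3 : (1 : ℝ) ≤ 2 ^ m := one_le_pow₀ (by norm_num)
    have h4 : 0 ≤ s ^ (m - d) := by positivity
    refine (abs_sub _ _).trans ?_
    nlinarith
  refine (sum_le_sum fun i _ => key i).trans (le_of_eq ?_)
  simp

/-- The test function: no block sits at level `k₀`. -/
def test (k₀ : ℕ) (x : Fin N × Fin m → Bool) : ℝ := ∏ j, (1 - ind k₀ (blk x j))

lemma abs_test_le (k₀ : ℕ) (x : Fin N × Fin m → Bool) : |test k₀ x| ≤ 1 := by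
  have h0 : ∀ j, 0 ≤ 1 - ind k₀ (blk x j) := fun j => by linarith [ind_le_one k₀ (blk x j)]
  rw [test, abs_of_nonneg (prod_nonneg fun j _ => h0 j)]
  exact prod_le_one (fun j _ => h0 j) fun j _ => by linarith [ind_nonneg k₀ (blk x j)]

lemma poly_heat_test (k₀ : ℕ) (ρ w : ℝ) :
    ∑ k ∈ range (m + 1), coef k (heat ρ (test (N := N) (m := m) k₀)) * w ^ k =
      -(N * pr m k₀ * (1 - pr m k₀) ^ (N - 1) *
        (((1 + w) / 2 - ρ * ((1 - w) / 2)) ^ k₀ * ((1 + w) / 2 + ρ * ((1 - w) / 2)) ^ (m - k₀) -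
          ((1 + w) / 2) ^ m)) := by
  rw [poly_eq]
  set α := (1 + w) / 2 with hα
  set β := (1 - w) / 2 with hβ
  have key : ∀ i : Fin N,
      av (fun x => (w ^ wt (blk x i) - α ^ m) * heat ρ (test (N := N) (m := m) k₀) x) =
      -(pr m k₀ * (1 - pr m k₀) ^ (N - 1) *
        ((α - ρ * β) ^ k₀ * (α + ρ * β) ^ (m - k₀) - α ^ m)) := by
    intro i
    have h1 : av (fun x => w ^ wt (blk x i) * heat ρ (test (N := N) (m := m) k₀) x) =
        av (fun x => (∏ j, (α + (ρ * β) * sg (blk x i j))) * test (N := N) (m := m) k₀ x) := by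
      simp only [pow_wt]
      rw [av_prod_blk_mul, av_prod_blk_mul]
      refine sum_congr rfl fun T _ => ?_
      rw [av_heat_chi, card_map, mul_pow]
      ring
    have h2 : av (heat ρ (test (N := N) (m := m) k₀)) = av (test (N := N) (m := m) k₀) := by
      simpa [chi] using av_heat_chi ρ (test (N := N) (m := m) k₀) ∅
    simp only [sub_mul]
    rw [av_sub, av_const_mul, h1, h2, ← av_const_mul, ← av_sub]
    simp only [← sub_mul]
    have h3 := av_one_mul_prod (N := N) (fun y : Fin m → Bool =>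
      (∏ j, (α + (ρ * β) * sg (y j))) - α ^ m) (fun y => 1 - ind k₀ y) i
    simp only [test]
    rw [h3]
    have h4 : av (fun y : Fin m → Bool => 1 - ind k₀ y) = 1 - pr m k₀ := by
      rw [av_sub, av_const]; rfl
    have h5 : (fun y : Fin m → Bool => ((∏ j, (α + (ρ * β) * sg (y j))) - α ^ m) * (1 - ind k₀ y)) =
        fun y => ((∏ j, (α + (ρ * β) * sg (y j))) - α ^ m) -
          ((α - ρ * β) ^ k₀ * (α + ρ * β) ^ (m - k₀) - α ^ m) * ind k₀ y := by
      funext y
      rw [prod_wt]
      unfold ind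
      split_ifs with h
      · rw [h]; ring
      · ring
    rw [h4, h5, av_sub, av_sub, av_const, av_prod_hom, av_const_mul, Fintype.card_fin]
    have : av (ind k₀ : (Fin m → Bool) → ℝ) = pr m k₀ := rfl
    rw [this]
    ring
  rw [sum_congr rfl fun i _ => key i]
  simp
  ring

/-- The mode of a binomial law. -/
lemma choose_mode (a l k : ℕ) (ha : 0 < a) :
    (((2 * a + 1) * l).choose k : ℝ) * ((a : ℝ) / (a + 1)) ^ k ≤
      (((2 * a + 1) * l).choose (a * l) : ℝ) * ((a : ℝ) / (a + 1)) ^ (a * l) := by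
  set n := (2 * a + 1) * l with hn
  set t : ℕ → ℝ := fun k => (n.choose k : ℝ) * ((a : ℝ) / (a + 1)) ^ k with ht
  have ha' : (0 : ℝ) < a := by exact_mod_cast ha
  have rec1 : ∀ k : ℕ, k ≤ n → t (k + 1) * (((k : ℝ) + 1) * (a + 1)) = t k * (((n : ℝ) - k) * a) := by
    intro k hk
    have h := Nat.choose_succ_right_eq n k
    have h' : (n.choose (k + 1) : ℝ) * ((k : ℝ) + 1) = n.choose k * ((n : ℝ) - k) := by
      rw [← Nat.cast_sub hk]; exact_mod_cast h
    simp only [ht, pow_succ]
    field_simp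
    linear_combination h'
  have t0 : ∀ k, 0 ≤ t k := fun k => by simp only [ht]; positivity
  have hnr : (n : ℝ) = (2 * a + 1) * l := by simp [hn]
  have up : ∀ k, k < a * l → t k ≤ t (k + 1) := by
    intro k hk
    have hk' : (k : ℝ) + 1 ≤ a * l := by exact_mod_cast hk
    have hkn : k ≤ n := by nlinarith
    have h := rec1 k hkn
    have hl : (0 : ℝ) ≤ l := Nat.cast_nonneg _
    have h2 : ((k : ℝ) + 1) * (a + 1) ≤ ((n : ℝ) - k) * a := by rw [hnr]; nlinarith
    have h3 : t k * (((k : ℝ) + 1) * (a + 1)) ≤ t (k + 1) * (((k : ℝ) + 1) * (a + 1)) := by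
      rw [h]; exact mul_le_mul_of_nonneg_left h2 (t0 k)
    exact le_of_mul_le_mul_right h3 (by positivity)
  have down : ∀ k, a * l ≤ k → t (k + 1) ≤ t k := by
    intro k hk
    by_cases hkn : k ≤ n
    · have hk' : (a : ℝ) * l ≤ k := by exact_mod_cast hk
      have h := rec1 k hkn
      have hl : (0 : ℝ) ≤ l := Nat.cast_nonneg _
      have h2 : ((n : ℝ) - k) * a ≤ ((k : ℝ) + 1) * (a + 1) := by rw [hnr]; nlinarith
      have h3 : t (k + 1) * (((k : ℝ) + 1) * (a + 1)) ≤ t k * (((k : ℝ) + 1) * (a + 1)) := by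
        rw [h]; exact mul_le_mul_of_nonneg_left h2 (t0 k)
      exact le_of_mul_le_mul_right h3 (by positivity)
    · have : n.choose (k + 1) = 0 := Nat.choose_eq_zero_of_lt (by omega)
      have h0 : t (k + 1) = 0 := by simp [ht, this]
      rw [h0]; exact t0 k
  show t k ≤ t (a * l)
  rcases le_total k (a * l) with h | h
  · induction h using Nat.decreasingInduction with
    | self => exact le_rfl
    | of_succ k hk ih => exact (up k hk).trans ih
  · induction k, h using Nat.le_induction with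
    | base => exact le_rfl
    | succ k hk ih => exact (down k hk).trans ih

lemma pr_le_half (a l : ℕ) (hl : 0 < l) : pr ((2 * a + 1) * l) (a * l) ≤ 1 / 2 := by
  set n := (2 * a + 1) * l with hn
  have h1 : a * l ≤ n := by rw [hn]; nlinarith
  have h2 : a * l ≠ n - a * l := by
    have : n = a * l + a * l + l := by rw [hn]; ring
    omega
  have h3 : ∑ k ∈ ({a * l, n - a * l} : Finset ℕ), n.choose k ≤ ∑ k ∈ range (n + 1), n.choose k := by
    refine sum_le_sum_of_subset fun k hk => ?_
    simp only [mem_insert, mem_singleton] at hk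
    rw [mem_range]; omega
  rw [sum_pair h2, Nat.choose_symm h1, Nat.sum_range_choose] at h3
  have h4 : (n.choose (a * l) : ℝ) + n.choose (a * l) ≤ 2 ^ n := by exact_mod_cast h3
  rw [pr_eq, div_le_iff₀ (by positivity)]
  linarith

lemma pr_ge (n k : ℕ) (hk : k ≤ n) : 1 / 2 ^ n ≤ pr n k := by
  rw [pr_eq]
  have : (1 : ℝ) ≤ n.choose k := by exact_mod_cast Nat.choose_pos hk
  gcongr

end Pool.Agent.P.MP_f066c6_an
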