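import Pool.Agent.P.MP_f066c6_an.LapC
import Pool.Agent.P.MP_f066c6_an.LapD

set_option autoImplicit false

namespace Pool.Agent.P.MP_f066c6_an.VariantLaplacianTail

open Pool.Agent.P.MP_f066c6_an

/-- For every `1 ≤ p < 2` and all large `d` there is a nonzero function of degree at least `d` on
some discrete cube whose Laplacian has `L^p` norm at most `C d / (log d)^2` times its own, and
whose `L^p` norm decays under the heat flow no faster than `1 - t C d / (log d)^2`. -/
theorem variant :
    ∀ p : ℝ, 1 ≤ p → p < 2 → ∃ C : ℝ, ∃ d₀ : ℕ, ∀ d : ℕ, d₀ ≤ d →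
      ∃ (n : ℕ) (f : (Fin n → Bool) → ℝ), f ≠ 0 ∧
        (∀ S : Finset (Fin n), S.card < d →
          ∑ x : Fin n → Bool, f x * ∏ i ∈ S, (if x i then (-1 : ℝ) else 1) = 0) ∧
        (∑ x : Fin n → Bool,
            |∑ S : Finset (Fin n),
                (S.card : ℝ) *
                  ((1 / (2 : ℝ) ^ n) *
                    ∑ y : Fin n → Bool, f y * ∏ i ∈ S, (if y i then (-1 : ℝ) else 1)) *
                  ∏ i ∈ S, (if x i then (-1 : ℝ) else 1)| ^ p) ^ (1 / p)
          ≤ C * d / Real.log d ^ 2 * (∑ x : Fin n → Bool, |f x| ^ p) ^ (1 / p) ∧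
        ∀ t : ℝ, 0 ≤ t →
          (1 - t * (C * d / Real.log d ^ 2)) * (∑ x : Fin n → Bool, |f x| ^ p) ^ (1 / p) ≤
          (∑ x : Fin n → Bool,
            |∑ S : Finset (Fin n),
                Real.exp (-t * (S.card : ℝ)) *
                  ((1 / (2 : ℝ) ^ n) *
                    ∑ y : Fin n → Bool, f y * ∏ i ∈ S, (if y i then (-1 : ℝ) else 1)) *
                  ∏ i ∈ S, (if x i then (-1 : ℝ) else 1)| ^ p) ^ (1 / p) := by
  intro p hp hp2
  obtain ⟨C, d₀, H⟩ := exists_slow hp hp2
  refine ⟨C, d₀, fun d hd => ?_⟩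
  obtain ⟨n, hn⟩ := H d hd
  unfold LapBd at hn
  push Not at hn
  obtain ⟨f, hf, h⟩ := hn
  have hc : (0 : ℝ) < Fintype.card (Fin n → Bool) := by exact_mod_cast Fintype.card_pos
  refine ⟨n, f, ?_, fun S hS => ?_, ?_, fun t ht => ?_⟩
  · rintro rfl
    have h0 : nrm p (0 : (Fin n → Bool) → ℝ) = 0 := by
      have := nrm_mul hp 0 (0 : (Fin n → Bool) → ℝ)
      simp only [abs_zero, zero_mul] at this
      exact this
    rw [h0, mul_zero] at h
    exact absurd h (not_lt.2 (nrm_nonneg _))
  · have := hf S hS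
    rw [av, div_eq_zero_iff] at this
    exact this.resolve_right hc.ne'
  · rw [nrm_eq, nrm_eq, ← mul_div_assoc, div_lt_div_iff_of_pos_right (by positivity)] at h
    refine le_of_eq_of_le ?_ h.le
    congr 1
    refine Finset.sum_congr rfl fun x _ => ?_
    congr 2
    refine Finset.sum_congr rfl fun S _ => ?_
    simp only [av, chi, sg, Fintype.card_fun, Fintype.card_bool, Fintype.card_fin]
    push_cast
    ring
  · have h1 := heat_lower hp ht h.le
    rw [nrm_eq, nrm_eq, ← mul_div_assoc, div_le_div_iff_of_pos_right (by positivity)] at h1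
    refine h1.trans_eq ?_
    congr 1
    refine Finset.sum_congr rfl fun x _ => ?_
    congr 2
    refine Finset.sum_congr rfl fun S _ => ?_
    simp only [av, chi, sg, Fintype.card_fun, Fintype.card_bool, Fintype.card_fin,
      ← Real.exp_nat_mul, mul_comm (-t)]
    push_cast
    ring

end Pool.Agent.P.MP_f066c6_an.VariantLaplacianTail
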